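import Pool.Agent.H180.Net.Perms

/-!
# The certificate for the 24-cell
-/

set_option autoImplicit false
set_option maxRecDepth 100000

namespace Pool.Agent.H180.Net.C24

/-- vertices up to signs, part 0 -/
def L0 : List V4 :=
   [⟨⟨1, 0⟩, ⟨1, 0⟩, ⟨0, 0⟩, ⟨0, 0⟩⟩,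
    ⟨⟨1, 0⟩, ⟨0, 0⟩, ⟨0, 0⟩, ⟨1, 0⟩⟩,
    ⟨⟨1, 0⟩, ⟨0, 0⟩, ⟨1, 0⟩, ⟨0, 0⟩⟩,
    ⟨⟨0, 0⟩, ⟨1, 0⟩, ⟨1, 0⟩, ⟨0, 0⟩⟩,
    ⟨⟨0, 0⟩, ⟨1, 0⟩, ⟨0, 0⟩, ⟨1, 0⟩⟩,
    ⟨⟨0, 0⟩, ⟨0, 0⟩, ⟨1, 0⟩, ⟨1, 0⟩⟩]

/-- the certificate -/
def C : Cert where
  L := L0
  a := ![⟨⟨0, 0⟩, ⟨1, 0⟩, ⟨0, 0⟩, ⟨-1, 0⟩⟩,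
    ⟨⟨0, 0⟩, ⟨0, 0⟩, ⟨-1, 0⟩, ⟨1, 0⟩⟩,
    ⟨⟨0, 0⟩, ⟨0, 0⟩, ⟨2, 0⟩, ⟨0, 0⟩⟩,
    ⟨⟨1, 0⟩, ⟨-1, 0⟩, ⟨-1, 0⟩, ⟨-1, 0⟩⟩]
  A := ![
    [⟨⟨0, 0⟩, ⟨1, 0⟩, ⟨0, 0⟩, ⟨-1, 0⟩⟩,
      ⟨⟨0, 0⟩, ⟨-1, 0⟩, ⟨0, 0⟩, ⟨-1, 0⟩⟩],
    [⟨⟨0, 0⟩, ⟨0, 0⟩, ⟨-1, 0⟩, ⟨1, 0⟩⟩,
      ⟨⟨0, 0⟩, ⟨0, 0⟩, ⟨1, 0⟩, ⟨1, 0⟩⟩],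
    [⟨⟨0, 0⟩, ⟨0, 0⟩, ⟨2, 0⟩, ⟨0, 0⟩⟩],
    [⟨⟨1, 0⟩, ⟨-1, 0⟩, ⟨-1, 0⟩, ⟨-1, 0⟩⟩,
      ⟨⟨-1, 0⟩, ⟨-1, 0⟩, ⟨-1, 0⟩, ⟨-1, 0⟩⟩,
      ⟨⟨1, 0⟩, ⟨1, 0⟩, ⟨-1, 0⟩, ⟨-1, 0⟩⟩,
      ⟨⟨-1, 0⟩, ⟨1, 0⟩, ⟨-1, 0⟩, ⟨-1, 0⟩⟩,
      ⟨⟨1, 0⟩, ⟨-1, 0⟩, ⟨1, 0⟩, ⟨-1, 0⟩⟩,
      ⟨⟨-1, 0⟩, ⟨-1, 0⟩, ⟨1, 0⟩, ⟨-1, 0⟩⟩,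
      ⟨⟨1, 0⟩, ⟨1, 0⟩, ⟨1, 0⟩, ⟨-1, 0⟩⟩,
      ⟨⟨-1, 0⟩, ⟨1, 0⟩, ⟨1, 0⟩, ⟨-1, 0⟩⟩]]
  κ := ![⟨1, 0⟩, ⟨1, 0⟩, ⟨1/2, 0⟩, ⟨1/2, 0⟩]
  pl := ![
    [⟨⟨1, 0⟩, ⟨1, 0⟩, ⟨0, 0⟩, ⟨0, 0⟩⟩],
    [⟨⟨1, 0⟩, ⟨1, 0⟩, ⟨0, 0⟩, ⟨0, 0⟩⟩,
      ⟨⟨1, 0⟩, ⟨0, 0⟩, ⟨0, 0⟩, ⟨1, 0⟩⟩],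
    [⟨⟨1, 0⟩, ⟨1, 0⟩, ⟨0, 0⟩, ⟨0, 0⟩⟩,
      ⟨⟨1, 0⟩, ⟨0, 0⟩, ⟨0, 0⟩, ⟨1, 0⟩⟩,
      ⟨⟨1, 0⟩, ⟨0, 0⟩, ⟨1, 0⟩, ⟨0, 0⟩⟩],
    [⟨⟨1, 0⟩, ⟨1, 0⟩, ⟨0, 0⟩, ⟨0, 0⟩⟩,
      ⟨⟨1, 0⟩, ⟨-1, 0⟩, ⟨0, 0⟩, ⟨0, 0⟩⟩,
      ⟨⟨1, 0⟩, ⟨0, 0⟩, ⟨0, 0⟩, ⟨1, 0⟩⟩,
      ⟨⟨1, 0⟩, ⟨0, 0⟩, ⟨0, 0⟩, ⟨-1, 0⟩⟩,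
      ⟨⟨1, 0⟩, ⟨0, 0⟩, ⟨1, 0⟩, ⟨0, 0⟩⟩,
      ⟨⟨1, 0⟩, ⟨0, 0⟩, ⟨-1, 0⟩, ⟨0, 0⟩⟩]]
  p := ![⟨⟨1, 0⟩, ⟨1, 0⟩, ⟨0, 0⟩, ⟨0, 0⟩⟩,
    ⟨⟨1, 0⟩, ⟨1/2, 0⟩, ⟨0, 0⟩, ⟨1/2, 0⟩⟩,
    ⟨⟨1, 0⟩, ⟨1/3, 0⟩, ⟨1/3, 0⟩, ⟨1/3, 0⟩⟩,
    ⟨⟨1, 0⟩, ⟨0, 0⟩, ⟨0, 0⟩, ⟨0, 0⟩⟩]
  nv := ⟨⟨2, 0⟩, ⟨0, 0⟩, ⟨0, 0⟩, ⟨0, 0⟩⟩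
  c := ⟨2, 0⟩
  m₀ := ⟨⟨-2, 0⟩, ⟨0, 0⟩, ⟨0, 0⟩, ⟨0, 0⟩⟩
  path := [⟨⟨-1, 0⟩, ⟨1, 0⟩, ⟨1, 0⟩, ⟨1, 0⟩⟩,
    ⟨⟨0, 0⟩, ⟨2, 0⟩, ⟨0, 0⟩, ⟨0, 0⟩⟩,
    ⟨⟨1, 0⟩, ⟨1, 0⟩, ⟨-1, 0⟩, ⟨1, 0⟩⟩,
    ⟨⟨0, 0⟩, ⟨0, 0⟩, ⟨0, 0⟩, ⟨2, 0⟩⟩,
    ⟨⟨-1, 0⟩, ⟨1, 0⟩, ⟨-1, 0⟩, ⟨1, 0⟩⟩,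
    ⟨⟨-1, 0⟩, ⟨1, 0⟩, ⟨-1, 0⟩, ⟨-1, 0⟩⟩,
    ⟨⟨-1, 0⟩, ⟨1, 0⟩, ⟨1, 0⟩, ⟨-1, 0⟩⟩]
  κ' := ⟨1/6, 0⟩
  q := [
    ((⟨⟨-1, 0⟩, ⟨1, 0⟩, ⟨0, 0⟩, ⟨0, 0⟩⟩, ⟨⟨-1, 0⟩, ⟨0, 0⟩, ⟨0, 0⟩, ⟨1, 0⟩⟩, ⟨⟨-1, 0⟩, ⟨0, 0⟩, ⟨1, 0⟩, ⟨0, 0⟩⟩),
     (⟨⟨0, 0⟩, ⟨1, 0⟩, ⟨0, 0⟩, ⟨0, 0⟩⟩, ⟨⟨0, 0⟩, ⟨0, 0⟩, ⟨0, 0⟩, ⟨1, 0⟩⟩, ⟨⟨0, 0⟩, ⟨0, 0⟩, ⟨1, 0⟩, ⟨0, 0⟩⟩)),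
    ((⟨⟨-1, 0⟩, ⟨1, 0⟩, ⟨0, 0⟩, ⟨0, 0⟩⟩, ⟨⟨0, 0⟩, ⟨1, 0⟩, ⟨1, 0⟩, ⟨0, 0⟩⟩, ⟨⟨0, 0⟩, ⟨1, 0⟩, ⟨0, 0⟩, ⟨1, 0⟩⟩),
     (⟨⟨0, 0⟩, ⟨1, 0⟩, ⟨-1, 0⟩, ⟨-1, 0⟩⟩, ⟨⟨0, 0⟩, ⟨0, 0⟩, ⟨1, 0⟩, ⟨0, 0⟩⟩, ⟨⟨0, 0⟩, ⟨0, 0⟩, ⟨0, 0⟩, ⟨1, 0⟩⟩)),
    ((⟨⟨1, 0⟩, ⟨1, 0⟩, ⟨0, 0⟩, ⟨0, 0⟩⟩, ⟨⟨0, 0⟩, ⟨1, 0⟩, ⟨-1, 0⟩, ⟨0, 0⟩⟩, ⟨⟨0, 0⟩, ⟨1, 0⟩, ⟨0, 0⟩, ⟨1, 0⟩⟩),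
     (⟨⟨0, 0⟩, ⟨1, 0⟩, ⟨1, 0⟩, ⟨-1, 0⟩⟩, ⟨⟨0, 0⟩, ⟨0, 0⟩, ⟨-1, 0⟩, ⟨0, 0⟩⟩, ⟨⟨0, 0⟩, ⟨0, 0⟩, ⟨0, 0⟩, ⟨1, 0⟩⟩)),
    ((⟨⟨1, 0⟩, ⟨0, 0⟩, ⟨0, 0⟩, ⟨1, 0⟩⟩, ⟨⟨0, 0⟩, ⟨1, 0⟩, ⟨0, 0⟩, ⟨1, 0⟩⟩, ⟨⟨0, 0⟩, ⟨0, 0⟩, ⟨-1, 0⟩, ⟨1, 0⟩⟩),
     (⟨⟨0, 0⟩, ⟨-1, 0⟩, ⟨1, 0⟩, ⟨1, 0⟩⟩, ⟨⟨0, 0⟩, ⟨1, 0⟩, ⟨0, 0⟩, ⟨0, 0⟩⟩, ⟨⟨0, 0⟩, ⟨0, 0⟩, ⟨-1, 0⟩, ⟨0, 0⟩⟩)),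
    ((⟨⟨-1, 0⟩, ⟨0, 0⟩, ⟨0, 0⟩, ⟨1, 0⟩⟩, ⟨⟨0, 0⟩, ⟨1, 0⟩, ⟨0, 0⟩, ⟨1, 0⟩⟩, ⟨⟨0, 0⟩, ⟨0, 0⟩, ⟨-1, 0⟩, ⟨1, 0⟩⟩),
     (⟨⟨0, 0⟩, ⟨-1, 0⟩, ⟨1, 0⟩, ⟨1, 0⟩⟩, ⟨⟨0, 0⟩, ⟨1, 0⟩, ⟨0, 0⟩, ⟨0, 0⟩⟩, ⟨⟨0, 0⟩, ⟨0, 0⟩, ⟨-1, 0⟩, ⟨0, 0⟩⟩)),
    ((⟨⟨-1, 0⟩, ⟨1, 0⟩, ⟨0, 0⟩, ⟨0, 0⟩⟩, ⟨⟨-1, 0⟩, ⟨0, 0⟩, ⟨-1, 0⟩, ⟨0, 0⟩⟩, ⟨⟨0, 0⟩, ⟨1, 0⟩, ⟨-1, 0⟩, ⟨0, 0⟩⟩),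
     (⟨⟨-1/2, 0⟩, ⟨1/2, 0⟩, ⟨1/2, 0⟩, ⟨0, 0⟩⟩, ⟨⟨-1/2, 0⟩, ⟨-1/2, 0⟩, ⟨-1/2, 0⟩, ⟨0, 0⟩⟩, ⟨⟨1/2, 0⟩, ⟨1/2, 0⟩, ⟨-1/2, 0⟩, ⟨0, 0⟩⟩)),
    ((⟨⟨-1, 0⟩, ⟨1, 0⟩, ⟨0, 0⟩, ⟨0, 0⟩⟩, ⟨⟨-1, 0⟩, ⟨0, 0⟩, ⟨0, 0⟩, ⟨-1, 0⟩⟩, ⟨⟨0, 0⟩, ⟨1, 0⟩, ⟨0, 0⟩, ⟨-1, 0⟩⟩),
     (⟨⟨-1/2, 0⟩, ⟨1/2, 0⟩, ⟨0, 0⟩, ⟨1/2, 0⟩⟩, ⟨⟨-1/2, 0⟩, ⟨-1/2, 0⟩, ⟨0, 0⟩, ⟨-1/2, 0⟩⟩, ⟨⟨1/2, 0⟩, ⟨1/2, 0⟩, ⟨0, 0⟩, ⟨-1/2, 0⟩⟩))]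
  w0 := ![⟨⟨-1, 0⟩, ⟨-1, 0⟩, ⟨0, 0⟩, ⟨0, 0⟩⟩,
    ⟨⟨-1, 0⟩, ⟨0, 0⟩, ⟨0, 0⟩, ⟨1, 0⟩⟩,
    ⟨⟨-1, 0⟩, ⟨0, 0⟩, ⟨0, 0⟩, ⟨-1, 0⟩⟩,
    ⟨⟨-1, 0⟩, ⟨0, 0⟩, ⟨-1, 0⟩, ⟨0, 0⟩⟩]
  d0 := ![⟨⟨0, 0⟩, ⟨-1, 0⟩, ⟨0, 0⟩, ⟨0, 0⟩⟩,
    ⟨⟨-1/2, 0⟩, ⟨1/2, 0⟩, ⟨1/2, 0⟩, ⟨1/2, 0⟩⟩,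
    ⟨⟨-1/2, 0⟩, ⟨1/2, 0⟩, ⟨1/2, 0⟩, ⟨-1/2, 0⟩⟩,
    ⟨⟨0, 0⟩, ⟨0, 0⟩, ⟨-1, 0⟩, ⟨0, 0⟩⟩]
  wk := ![⟨⟨-1, 0⟩, ⟨1, 0⟩, ⟨0, 0⟩, ⟨0, 0⟩⟩,
    ⟨⟨-1, 0⟩, ⟨0, 0⟩, ⟨1, 0⟩, ⟨0, 0⟩⟩,
    ⟨⟨0, 0⟩, ⟨1, 0⟩, ⟨1, 0⟩, ⟨0, 0⟩⟩,
    ⟨⟨0, 0⟩, ⟨1, 0⟩, ⟨0, 0⟩, ⟨-1, 0⟩⟩]
  dk := ![⟨⟨-1/2, 0⟩, ⟨1/2, 0⟩, ⟨-1/2, 0⟩, ⟨1/2, 0⟩⟩,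
    ⟨⟨-1/2, 0⟩, ⟨-1/2, 0⟩, ⟨1/2, 0⟩, ⟨-1/2, 0⟩⟩,
    ⟨⟨1/2, 0⟩, ⟨1/2, 0⟩, ⟨1/2, 0⟩, ⟨1/2, 0⟩⟩,
    ⟨⟨0, 0⟩, ⟨0, 0⟩, ⟨0, 0⟩, ⟨-1, 0⟩⟩]
  x := ⟨⟨-1, 0⟩, ⟨-1/4, 0⟩, ⟨-1/4, 0⟩, ⟨0, 0⟩⟩
  y := ⟨⟨-16/81, 0⟩, ⟨313/324, 0⟩, ⟨85/108, 0⟩, ⟨-4/81, 0⟩⟩

lemma i0 : ∀ a ∈ C.A 0, ∀ v ∈ C.L, (V4.rf (C.κ 0) a ⟨0, 0⟩ v).abs ∈ C.L := by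
  decide +kernel

lemma i1 : ∀ a ∈ C.A 1, ∀ v ∈ C.L, (V4.rf (C.κ 1) a ⟨0, 0⟩ v).abs ∈ C.L := by
  decide +kernel

lemma i2 : ∀ a ∈ C.A 2, ∀ v ∈ C.L, (V4.rf (C.κ 2) a ⟨0, 0⟩ v).abs ∈ C.L := by
  decide +kernel

lemma i3 : ∀ a ∈ C.A 3, ∀ v ∈ C.L, (V4.rf (C.κ 3) a ⟨0, 0⟩ v).abs ∈ C.L := by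
  decide +kernel

lemma good : C.Good where
  hκ := by decide +kernel
  Lnn := by decide +kernel
  hA := by decide +kernel
  inv := by
    intro k
    fin_cases k
    · exact i0
    · exact i1
    · exact i2
    · exact i3
  hpl := by decide +kernel
  pn := by decide +kernel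
  ap_pos := by decide +kernel
  ap_zero := by decide +kernel
  an := by decide +kernel
  nN := by decide +kernel
  c_pos := by decide +kernel

lemma hN : ∀ m ∈ C.m₀ :: C.path, C.IsN m := by decide +kernel

lemma hadj : (C.m₀ :: C.path).IsChain C.AdjC := by decide +kernel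

lemma hnd : (C.m₀ :: C.path).Nodup := by decide +kernel

lemma hx : C.InT C.m₀ C.w0 C.d0 C.x := by decide +kernel

lemma hy : C.InT ((C.m₀ :: C.path).getLast (List.cons_ne_nil _ _)) C.wk C.dk C.y := by decide +kernel

lemma hxy : C.dlK (C.m₀ :: C.path) C.y = C.x := by decide +kernel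

theorem main : ¬ AllNet (convexHull ℝ (SR C.L)) :=
  Cert.main good hN hadj hnd (by decide) hx hy hxy

lemma e0 : perms ![1, 1, 0, 0] = SR L0 := by
  refine perms_eq _ ![⟨1, 0⟩, ⟨1, 0⟩, ⟨0, 0⟩, ⟨0, 0⟩] ?_ _ (by decide +kernel) (by decide +kernel)
  intro i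
  fin_cases i
  · exact c1
  · exact c1
  · exact c0
  · exact c0

theorem result : ¬ AllNet cell24 := by
  rw [cell24, e0]
  exact main

end Pool.Agent.H180.Net.C24
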