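import Pool.Agent.H180.Net.Perms

/-!
# The certificate for the 600-cell
-/

set_option autoImplicit false
set_option maxRecDepth 100000

namespace Pool.Agent.H180.Net.C600

/-- vertices up to signs, part 0 -/
def L0 : List V4 :=
   [⟨⟨2, 0⟩, ⟨0, 0⟩, ⟨0, 0⟩, ⟨0, 0⟩⟩,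
    ⟨⟨0, 0⟩, ⟨2, 0⟩, ⟨0, 0⟩, ⟨0, 0⟩⟩,
    ⟨⟨0, 0⟩, ⟨0, 0⟩, ⟨2, 0⟩, ⟨0, 0⟩⟩,
    ⟨⟨0, 0⟩, ⟨0, 0⟩, ⟨0, 0⟩, ⟨2, 0⟩⟩]

/-- vertices up to signs, part 1 -/
def L1 : List V4 :=
   [⟨⟨1, 0⟩, ⟨1, 0⟩, ⟨1, 0⟩, ⟨1, 0⟩⟩]

/-- vertices up to signs, part 2 -/
def L2 : List V4 :=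
   [⟨⟨1/2, 1/2⟩, ⟨1, 0⟩, ⟨-1/2, 1/2⟩, ⟨0, 0⟩⟩,
    ⟨⟨1/2, 1/2⟩, ⟨-1/2, 1/2⟩, ⟨0, 0⟩, ⟨1, 0⟩⟩,
    ⟨⟨1/2, 1/2⟩, ⟨0, 0⟩, ⟨1, 0⟩, ⟨-1/2, 1/2⟩⟩,
    ⟨⟨1, 0⟩, ⟨1/2, 1/2⟩, ⟨0, 0⟩, ⟨-1/2, 1/2⟩⟩,
    ⟨⟨1, 0⟩, ⟨-1/2, 1/2⟩, ⟨1/2, 1/2⟩, ⟨0, 0⟩⟩,
    ⟨⟨1, 0⟩, ⟨0, 0⟩, ⟨-1/2, 1/2⟩, ⟨1/2, 1/2⟩⟩,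
    ⟨⟨-1/2, 1/2⟩, ⟨1/2, 1/2⟩, ⟨1, 0⟩, ⟨0, 0⟩⟩,
    ⟨⟨-1/2, 1/2⟩, ⟨1, 0⟩, ⟨0, 0⟩, ⟨1/2, 1/2⟩⟩,
    ⟨⟨-1/2, 1/2⟩, ⟨0, 0⟩, ⟨1/2, 1/2⟩, ⟨1, 0⟩⟩,
    ⟨⟨0, 0⟩, ⟨1/2, 1/2⟩, ⟨-1/2, 1/2⟩, ⟨1, 0⟩⟩,
    ⟨⟨0, 0⟩, ⟨1, 0⟩, ⟨1/2, 1/2⟩, ⟨-1/2, 1/2⟩⟩,
    ⟨⟨0, 0⟩, ⟨-1/2, 1/2⟩, ⟨1, 0⟩, ⟨1/2, 1/2⟩⟩]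

/-- the certificate -/
def C : Cert where
  L := L0 ++ L1 ++ L2
  a := ![⟨⟨1, 0⟩, ⟨-1, 0⟩, ⟨1, 0⟩, ⟨-1, 0⟩⟩,
    ⟨⟨0, 0⟩, ⟨0, 0⟩, ⟨0, 0⟩, ⟨2, 0⟩⟩,
    ⟨⟨-1, 0⟩, ⟨1, 0⟩, ⟨1, 0⟩, ⟨-1, 0⟩⟩,
    ⟨⟨1, 0⟩, ⟨1/2, -1/2⟩, ⟨-1/2, -1/2⟩, ⟨0, 0⟩⟩]
  A := ![
    [⟨⟨1, 0⟩, ⟨-1, 0⟩, ⟨1, 0⟩, ⟨-1, 0⟩⟩,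
      ⟨⟨-1, 0⟩, ⟨-1, 0⟩, ⟨1, 0⟩, ⟨-1, 0⟩⟩,
      ⟨⟨1, 0⟩, ⟨1, 0⟩, ⟨1, 0⟩, ⟨-1, 0⟩⟩,
      ⟨⟨-1, 0⟩, ⟨1, 0⟩, ⟨1, 0⟩, ⟨-1, 0⟩⟩,
      ⟨⟨1, 0⟩, ⟨-1, 0⟩, ⟨-1, 0⟩, ⟨-1, 0⟩⟩,
      ⟨⟨-1, 0⟩, ⟨-1, 0⟩, ⟨-1, 0⟩, ⟨-1, 0⟩⟩,
      ⟨⟨1, 0⟩, ⟨1, 0⟩, ⟨-1, 0⟩, ⟨-1, 0⟩⟩,
      ⟨⟨-1, 0⟩, ⟨1, 0⟩, ⟨-1, 0⟩, ⟨-1, 0⟩⟩],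
    [⟨⟨0, 0⟩, ⟨0, 0⟩, ⟨0, 0⟩, ⟨2, 0⟩⟩],
    [⟨⟨-1, 0⟩, ⟨1, 0⟩, ⟨1, 0⟩, ⟨-1, 0⟩⟩,
      ⟨⟨1, 0⟩, ⟨1, 0⟩, ⟨1, 0⟩, ⟨-1, 0⟩⟩,
      ⟨⟨-1, 0⟩, ⟨-1, 0⟩, ⟨1, 0⟩, ⟨-1, 0⟩⟩,
      ⟨⟨1, 0⟩, ⟨-1, 0⟩, ⟨1, 0⟩, ⟨-1, 0⟩⟩,
      ⟨⟨-1, 0⟩, ⟨1, 0⟩, ⟨-1, 0⟩, ⟨-1, 0⟩⟩,
      ⟨⟨1, 0⟩, ⟨1, 0⟩, ⟨-1, 0⟩, ⟨-1, 0⟩⟩,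
      ⟨⟨-1, 0⟩, ⟨-1, 0⟩, ⟨-1, 0⟩, ⟨-1, 0⟩⟩,
      ⟨⟨1, 0⟩, ⟨-1, 0⟩, ⟨-1, 0⟩, ⟨-1, 0⟩⟩],
    [⟨⟨1, 0⟩, ⟨1/2, -1/2⟩, ⟨-1/2, -1/2⟩, ⟨0, 0⟩⟩,
      ⟨⟨-1, 0⟩, ⟨1/2, -1/2⟩, ⟨-1/2, -1/2⟩, ⟨0, 0⟩⟩,
      ⟨⟨1, 0⟩, ⟨-1/2, 1/2⟩, ⟨-1/2, -1/2⟩, ⟨0, 0⟩⟩,
      ⟨⟨-1, 0⟩, ⟨-1/2, 1/2⟩, ⟨-1/2, -1/2⟩, ⟨0, 0⟩⟩]]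
  κ := ![⟨1/2, 0⟩, ⟨1/2, 0⟩, ⟨1/2, 0⟩, ⟨1/2, 0⟩]
  pl := ![
    [⟨⟨1/2, 1/2⟩, ⟨1, 0⟩, ⟨-1/2, 1/2⟩, ⟨0, 0⟩⟩],
    [⟨⟨1/2, 1/2⟩, ⟨1, 0⟩, ⟨-1/2, 1/2⟩, ⟨0, 0⟩⟩,
      ⟨⟨1, 0⟩, ⟨1/2, 1/2⟩, ⟨0, 0⟩, ⟨-1/2, 1/2⟩⟩],
    [⟨⟨1/2, 1/2⟩, ⟨1, 0⟩, ⟨-1/2, 1/2⟩, ⟨0, 0⟩⟩,
      ⟨⟨1, 0⟩, ⟨1/2, 1/2⟩, ⟨0, 0⟩, ⟨-1/2, 1/2⟩⟩,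
      ⟨⟨1, 0⟩, ⟨1/2, 1/2⟩, ⟨0, 0⟩, ⟨1/2, -1/2⟩⟩],
    [⟨⟨1/2, 1/2⟩, ⟨1, 0⟩, ⟨-1/2, 1/2⟩, ⟨0, 0⟩⟩,
      ⟨⟨1/2, 1/2⟩, ⟨1, 0⟩, ⟨1/2, -1/2⟩, ⟨0, 0⟩⟩,
      ⟨⟨1, 0⟩, ⟨1/2, 1/2⟩, ⟨0, 0⟩, ⟨-1/2, 1/2⟩⟩,
      ⟨⟨1, 0⟩, ⟨1/2, 1/2⟩, ⟨0, 0⟩, ⟨1/2, -1/2⟩⟩]]
  p := ![⟨⟨1/2, 1/2⟩, ⟨1, 0⟩, ⟨-1/2, 1/2⟩, ⟨0, 0⟩⟩,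
    ⟨⟨3/4, 1/4⟩, ⟨3/4, 1/4⟩, ⟨-1/4, 1/4⟩, ⟨-1/4, 1/4⟩⟩,
    ⟨⟨5/6, 1/6⟩, ⟨2/3, 1/3⟩, ⟨-1/6, 1/6⟩, ⟨0, 0⟩⟩,
    ⟨⟨3/4, 1/4⟩, ⟨3/4, 1/4⟩, ⟨0, 0⟩, ⟨0, 0⟩⟩]
  nv := ⟨⟨2, 0⟩, ⟨2, 0⟩, ⟨0, 0⟩, ⟨0, 0⟩⟩
  c := ⟨3, 1⟩
  m₀ := ⟨⟨-3/2, -1/2⟩, ⟨1, 0⟩, ⟨0, 0⟩, ⟨3/2, -1/2⟩⟩
  path := [⟨⟨0, -1⟩, ⟨1/2, 1/2⟩, ⟨0, 0⟩, ⟨-1/2, 1/2⟩⟩,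
    ⟨⟨-2, 0⟩, ⟨1/2, 1/2⟩, ⟨1/2, -1/2⟩, ⟨1, 0⟩⟩,
    ⟨⟨0, -1⟩, ⟨1, 0⟩, ⟨-1, 0⟩, ⟨1, 0⟩⟩,
    ⟨⟨-3/2, -1/2⟩, ⟨-1/2, 1/2⟩, ⟨1/2, -1/2⟩, ⟨-1/2, 1/2⟩⟩,
    ⟨⟨-3/2, -1/2⟩, ⟨0, 0⟩, ⟨-3/2, 1/2⟩, ⟨1, 0⟩⟩,
    ⟨⟨-3/2, -1/2⟩, ⟨0, 0⟩, ⟨3/2, -1/2⟩, ⟨1, 0⟩⟩,
    ⟨⟨-3/2, -1/2⟩, ⟨-1/2, 1/2⟩, ⟨-1/2, 1/2⟩, ⟨-1/2, 1/2⟩⟩]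
  κ' := ⟨1/4, -1/12⟩
  q := [
    ((⟨⟨-1/2, -1/2⟩, ⟨1, 0⟩, ⟨-1/2, 1/2⟩, ⟨0, 0⟩⟩, ⟨⟨-1/2, -1/2⟩, ⟨1, 0⟩, ⟨1/2, -1/2⟩, ⟨0, 0⟩⟩, ⟨⟨-1/2, -1/2⟩, ⟨-1/2, 1/2⟩, ⟨0, 0⟩, ⟨1, 0⟩⟩),
     (⟨⟨0, 0⟩, ⟨1/2, 0⟩, ⟨1/4, 1/4⟩, ⟨1/4, -1/4⟩⟩, ⟨⟨0, 0⟩, ⟨1/2, 0⟩, ⟨-1/4, -1/4⟩, ⟨1/4, -1/4⟩⟩, ⟨⟨0, 0⟩, ⟨0, 0⟩, ⟨0, 0⟩, ⟨1, 0⟩⟩)),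
    ((⟨⟨-1/2, -1/2⟩, ⟨1, 0⟩, ⟨1/2, -1/2⟩, ⟨0, 0⟩⟩, ⟨⟨-1/2, -1/2⟩, ⟨-1/2, 1/2⟩, ⟨0, 0⟩, ⟨1, 0⟩⟩, ⟨⟨-1, 0⟩, ⟨1/2, 1/2⟩, ⟨0, 0⟩, ⟨-1/2, 1/2⟩⟩),
     (⟨⟨0, 0⟩, ⟨0, 0⟩, ⟨-1/2, -1/2⟩, ⟨0, 0⟩⟩, ⟨⟨0, 0⟩, ⟨-1/2, 0⟩, ⟨-1/4, -1/4⟩, ⟨3/4, 1/4⟩⟩, ⟨⟨0, 0⟩, ⟨1/4, 1/4⟩, ⟨3/4, 1/4⟩, ⟨-1/2, 0⟩⟩)),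
    ((⟨⟨-1, 0⟩, ⟨1, 0⟩, ⟨-1, 0⟩, ⟨1, 0⟩⟩, ⟨⟨-1/2, -1/2⟩, ⟨1, 0⟩, ⟨1/2, -1/2⟩, ⟨0, 0⟩⟩, ⟨⟨-1/2, -1/2⟩, ⟨-1/2, 1/2⟩, ⟨0, 0⟩, ⟨1, 0⟩⟩),
     (⟨⟨0, 0⟩, ⟨-1/4, -1/4⟩, ⟨-3/4, -1/4⟩, ⟨1/2, 0⟩⟩, ⟨⟨0, 0⟩, ⟨3/4, 1/4⟩, ⟨1/2, 0⟩, ⟨-1/4, -1/4⟩⟩, ⟨⟨0, 0⟩, ⟨1/4, 1/4⟩, ⟨3/4, 1/4⟩, ⟨1/2, 0⟩⟩)),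
    ((⟨⟨-1/2, -1/2⟩, ⟨1, 0⟩, ⟨1/2, -1/2⟩, ⟨0, 0⟩⟩, ⟨⟨-1/2, -1/2⟩, ⟨-1/2, 1/2⟩, ⟨0, 0⟩, ⟨1, 0⟩⟩, ⟨⟨-1/2, -1/2⟩, ⟨0, 0⟩, ⟨-1, 0⟩, ⟨-1/2, 1/2⟩⟩),
     (⟨⟨0, 0⟩, ⟨1/4, 1/4⟩, ⟨1/4, -1/4⟩, ⟨-1/2, 0⟩⟩, ⟨⟨0, 0⟩, ⟨-1/4, 1/4⟩, ⟨1/2, 0⟩, ⟨1/4, 1/4⟩⟩, ⟨⟨0, 0⟩, ⟨-1/2, 0⟩, ⟨-1/4, -1/4⟩, ⟨-1/4, 1/4⟩⟩)),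
    ((⟨⟨-2, 0⟩, ⟨0, 0⟩, ⟨0, 0⟩, ⟨0, 0⟩⟩, ⟨⟨-1/2, -1/2⟩, ⟨-1/2, 1/2⟩, ⟨0, 0⟩, ⟨1, 0⟩⟩, ⟨⟨-1/2, -1/2⟩, ⟨0, 0⟩, ⟨-1, 0⟩, ⟨-1/2, 1/2⟩⟩),
     (⟨⟨-1/2, 0⟩, ⟨0, 0⟩, ⟨-1/4, 1/4⟩, ⟨-1/4, -1/4⟩⟩, ⟨⟨0, 0⟩, ⟨0, 0⟩, ⟨-1/2, 1/2⟩, ⟨1, 0⟩⟩, ⟨⟨0, 0⟩, ⟨0, 0⟩, ⟨-1, 0⟩, ⟨0, 0⟩⟩)),
    ((⟨⟨-2, 0⟩, ⟨0, 0⟩, ⟨0, 0⟩, ⟨0, 0⟩⟩, ⟨⟨-1/2, -1/2⟩, ⟨-1/2, 1/2⟩, ⟨0, 0⟩, ⟨1, 0⟩⟩, ⟨⟨-1/2, -1/2⟩, ⟨1/2, -1/2⟩, ⟨0, 0⟩, ⟨1, 0⟩⟩),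
     (⟨⟨-1/2, 0⟩, ⟨0, 0⟩, ⟨0, 0⟩, ⟨-1/4, -1/4⟩⟩, ⟨⟨0, 0⟩, ⟨1/4, 1/4⟩, ⟨0, 0⟩, ⟨1/2, 0⟩⟩, ⟨⟨0, 0⟩, ⟨-1/4, -1/4⟩, ⟨0, 0⟩, ⟨1/2, 0⟩⟩)),
    ((⟨⟨-2, 0⟩, ⟨0, 0⟩, ⟨0, 0⟩, ⟨0, 0⟩⟩, ⟨⟨-1/2, -1/2⟩, ⟨-1/2, 1/2⟩, ⟨0, 0⟩, ⟨1, 0⟩⟩, ⟨⟨-1/2, -1/2⟩, ⟨0, 0⟩, ⟨1, 0⟩, ⟨-1/2, 1/2⟩⟩),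
     (⟨⟨-1/2, 0⟩, ⟨0, 0⟩, ⟨1/4, -1/4⟩, ⟨-1/4, -1/4⟩⟩, ⟨⟨0, 0⟩, ⟨0, 0⟩, ⟨1/2, -1/2⟩, ⟨1, 0⟩⟩, ⟨⟨0, 0⟩, ⟨0, 0⟩, ⟨1, 0⟩, ⟨0, 0⟩⟩))]
  w0 := ![⟨⟨-2, 0⟩, ⟨0, 0⟩, ⟨0, 0⟩, ⟨0, 0⟩⟩,
    ⟨⟨-1/2, -1/2⟩, ⟨1, 0⟩, ⟨-1/2, 1/2⟩, ⟨0, 0⟩⟩,
    ⟨⟨-1/2, -1/2⟩, ⟨1, 0⟩, ⟨1/2, -1/2⟩, ⟨0, 0⟩⟩,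
    ⟨⟨-1/2, -1/2⟩, ⟨-1/2, 1/2⟩, ⟨0, 0⟩, ⟨1, 0⟩⟩]
  d0 := ![⟨⟨-1/2, 0⟩, ⟨-1/4, -1/4⟩, ⟨0, 0⟩, ⟨1/4, -1/4⟩⟩,
    ⟨⟨0, 0⟩, ⟨1/2, 0⟩, ⟨1/4, 1/4⟩, ⟨1/4, -1/4⟩⟩,
    ⟨⟨0, 0⟩, ⟨1/2, 0⟩, ⟨-1/4, -1/4⟩, ⟨1/4, -1/4⟩⟩,
    ⟨⟨0, 0⟩, ⟨0, 0⟩, ⟨0, 0⟩, ⟨1, 0⟩⟩]
  wk := ![⟨⟨-2, 0⟩, ⟨0, 0⟩, ⟨0, 0⟩, ⟨0, 0⟩⟩,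
    ⟨⟨-1/2, -1/2⟩, ⟨1, 0⟩, ⟨-1/2, 1/2⟩, ⟨0, 0⟩⟩,
    ⟨⟨-1/2, -1/2⟩, ⟨-1/2, 1/2⟩, ⟨0, 0⟩, ⟨1, 0⟩⟩,
    ⟨⟨-1/2, -1/2⟩, ⟨0, 0⟩, ⟨1, 0⟩, ⟨-1/2, 1/2⟩⟩]
  dk := ![⟨⟨-1/2, 0⟩, ⟨-1/2, 0⟩, ⟨-1/2, 0⟩, ⟨-1/2, 0⟩⟩,
    ⟨⟨0, 0⟩, ⟨1/4, 1/4⟩, ⟨-1/4, 1/4⟩, ⟨-1/2, 0⟩⟩,
    ⟨⟨0, 0⟩, ⟨-1/4, 1/4⟩, ⟨-1/2, 0⟩, ⟨1/4, 1/4⟩⟩,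
    ⟨⟨0, 0⟩, ⟨-1/2, 0⟩, ⟨1/4, 1/4⟩, ⟨-1/4, 1/4⟩⟩]
  x := ⟨⟨-15/8, -1/24⟩, ⟨1/120, 1/40⟩, ⟨0, 0⟩, ⟨1/20, 0⟩⟩
  y := ⟨⟨-31249/17496, -3743/52488⟩, ⟨34963/262440, 671/262440⟩, ⟨-17363/262440, 5939/87480⟩, ⟨223/52488, 227/262440⟩⟩

lemma i0 : ∀ a ∈ C.A 0, ∀ v ∈ C.L, (V4.rf (C.κ 0) a ⟨0, 0⟩ v).abs ∈ C.L := by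
  decide +kernel

lemma i1 : ∀ a ∈ C.A 1, ∀ v ∈ C.L, (V4.rf (C.κ 1) a ⟨0, 0⟩ v).abs ∈ C.L := by
  decide +kernel

lemma i2 : ∀ a ∈ C.A 2, ∀ v ∈ C.L, (V4.rf (C.κ 2) a ⟨0, 0⟩ v).abs ∈ C.L := by
  decide +kernel

lemma i3 : ∀ a ∈ C.A 3, ∀ v ∈ C.L, (V4.rf (C.κ 3) a ⟨0, 0⟩ v).abs ∈ C.L := by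
  decide +kernel

lemma good : C.Good where
  hκ := by decide +kernel
  Lnn := by decide +kernel
  hA := by decide +kernel
  inv := by
    intro k
    fin_cases k
    · exact i0
    · exact i1
    · exact i2
    · exact i3
  hpl := by decide +kernel
  pn := by decide +kernel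
  ap_pos := by decide +kernel
  ap_zero := by decide +kernel
  an := by decide +kernel
  nN := by decide +kernel
  c_pos := by decide +kernel

lemma hN : ∀ m ∈ C.m₀ :: C.path, C.IsN m := by decide +kernel

lemma hadj : (C.m₀ :: C.path).IsChain C.AdjC := by decide +kernel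

lemma hnd : (C.m₀ :: C.path).Nodup := by decide +kernel

lemma hx : C.InT C.m₀ C.w0 C.d0 C.x := by decide +kernel

lemma hy : C.InT ((C.m₀ :: C.path).getLast (List.cons_ne_nil _ _)) C.wk C.dk C.y := by decide +kernel

lemma hxy : C.dlK (C.m₀ :: C.path) C.y = C.x := by decide +kernel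

theorem main : ¬ AllNet (convexHull ℝ (SR C.L)) :=
  Cert.main good hN hadj hnd (by decide) hx hy hxy

lemma e0 : perms ![2, 0, 0, 0] = SR L0 := by
  refine perms_eq _ ![⟨2, 0⟩, ⟨0, 0⟩, ⟨0, 0⟩, ⟨0, 0⟩] ?_ _ (by decide +kernel) (by decide +kernel)
  intro i
  fin_cases i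
  · exact c2
  · exact c0
  · exact c0
  · exact c0

lemma e1 : perms ![1, 1, 1, 1] = SR L1 := by
  refine perms_eq _ ![⟨1, 0⟩, ⟨1, 0⟩, ⟨1, 0⟩, ⟨1, 0⟩] ?_ _ (by decide +kernel) (by decide +kernel)
  intro i
  fin_cases i
  · exact c1
  · exact c1
  · exact c1
  · exact c1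

lemma e2 : evenPerms ![φ, 1, φ⁻¹, 0] = SR L2 := by
  refine evenPerms_eq _ ![⟨1/2, 1/2⟩, ⟨1, 0⟩, ⟨-1/2, 1/2⟩, ⟨0, 0⟩] ?_ _ (by decide +kernel) (by decide +kernel)
  intro i
  fin_cases i
  · exact cφ
  · exact c1
  · exact ci
  · exact c0

theorem result : ¬ AllNet cell600 := by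
  rw [cell600, e0, e1, e2, ← SR_append, ← SR_append]
  exact main

end Pool.Agent.H180.Net.C600
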