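import Pool.Agent.H180.Net.Comp

/-!
# Certificates for polytopes which are not all-net
-/

set_option autoImplicit false

namespace Pool.Agent.H180.Net

open Set Filter Topology
open scoped RealInnerProductSpace

namespace Data

variable {V : Set (E 4)} (D : Data V)

lemma mem_relint {m : E 4} (hm : m ∈ D.N) (w d : Fin 4 → E 4) (hpos : ∀ k, 0 < ⟪d k, w k⟫)
    (hz : ∀ j k, j ≠ k → ⟪d k, w j⟫ = 0) (hw : ∀ k, w k ∈ D.face m) {x : E 4}
    (hx : ⟪m, x⟫ = D.c) (hxd : ∀ k, 0 < ⟪d k, x⟫) : x ∈ intrinsicInterior ℝ (D.face m) := by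
  have hconv : Convex ℝ (D.face m) := D.face_convex m
  have key : ∀ z : E 4, ⟪m, z⟫ = D.c → (∀ k, 0 < ⟪d k, z⟫) → z ∈ D.face m := by
    intro z hz1 hz2
    have hexp := expand w d hpos hz z
    set μ : Fin 4 → ℝ := fun k => ⟪d k, z⟫ / ⟪d k, w k⟫ with hμ
    have hμ0 : ∀ k, 0 ≤ μ k := fun k => (div_pos (hz2 k) (hpos k)).le
    have hsum : (∑ k, μ k) * D.c = D.c := by
      conv_rhs => rw [← hz1, hexp]
      rw [inner_sum, Finset.sum_mul]
      exact Finset.sum_congr rfl fun k _ => by rw [inner_smul_right, (hw k).2]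
    have hsum1 : ∑ k, μ k = 1 := by
      have := D.c_pos.ne'
      field_simp at hsum
      linarith
    rw [hexp]
    exact hconv.sum_mem (fun k _ => hμ0 k) hsum1 fun k _ => hw k
  have hxF : x ∈ D.face m := key x hx hxd
  rw [mem_intrinsicInterior]
  refine ⟨⟨x, subset_affineSpan ℝ _ hxF⟩, ?_, rfl⟩
  rw [mem_interior]
  refine ⟨{z | ∀ k, 0 < ⟪d k, (z : E 4)⟫}, ?_, ?_, hxd⟩
  · rintro ⟨z, hz1⟩ hz2
    refine key z ?_ hz2
    have h1 : affineSpan ℝ (D.face m) ≤ AffineSubspace.mk' x (ℝ ∙ m)ᗮ := by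
      rw [affineSpan_le]
      intro y hy
      rw [SetLike.mem_coe, AffineSubspace.mem_mk', vsub_eq_sub,
        Submodule.mem_orthogonal_singleton_iff_inner_right, inner_sub_right, hx, hy.2, sub_self]
    have h2 := h1 hz1
    rw [AffineSubspace.mem_mk', vsub_eq_sub,
      Submodule.mem_orthogonal_singleton_iff_inner_right, inner_sub_right, hx, sub_eq_zero] at h2
    exact h2
  · rw [ofPred_forall]
    refine isOpen_iInter_of_finite fun k => ?_
    exact isOpen_lt continuous_const (by fun_prop)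

end Data

/-- the sum of a list of vectors -/
def sumV : List V4 → V4
  | [] => ⟨⟨0, 0⟩, ⟨0, 0⟩, ⟨0, 0⟩, ⟨0, 0⟩⟩
  | v :: l => v.add (sumV l)

lemma toE_zero : V4.toE ⟨⟨0, 0⟩, ⟨0, 0⟩, ⟨0, 0⟩, ⟨0, 0⟩⟩ = 0 := by
  ext i; fin_cases i <;> simp [V4.toE, K.toR]

lemma toE_sumV : ∀ l : List V4, (sumV l).toE = (l.map V4.toE).sum
  | [] => by simp [sumV, toE_zero]
  | v :: l => by simp [sumV, V4.toE_add, toE_sumV l]

lemma avg_mem {C : Set (E 4)} (hC : Convex ℝ C) (l : List V4) (hl : ∀ v ∈ l, v.toE ∈ C)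
    (hne : l ≠ []) {p : V4} (hp : V4.smul ⟨l.length, 0⟩ p = sumV l) : p.toE ∈ C := by
  have hlen : (0 : ℝ) < l.length := by
    exact_mod_cast List.length_pos_iff.mpr hne
  have h1 : (l.length : ℝ) • p.toE = (l.map V4.toE).sum := by
    rw [← toE_sumV, ← hp, V4.toE_smul]
    simp [K.toR]
  have h2 : p.toE = ∑ i : Fin l.length, ((l.length : ℝ)⁻¹) • (l.get i).toE := by
    rw [← Finset.smul_sum, eq_inv_smul_iff₀ hlen.ne', h1]
    conv_lhs => rw [← List.ofFn_get l]
    rw [List.map_ofFn, List.sum_ofFn]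
    rfl
  rw [h2]
  refine hC.sum_mem (fun _ _ => by positivity) ?_ fun i _ => hl _ (List.get_mem _ _)
  rw [Finset.sum_const, nsmul_eq_mul, Finset.card_univ, Fintype.card_fin,
    mul_inv_cancel₀ hlen.ne']

/-- The computable data. -/
structure Cert where
  /-- the vertices up to signs -/
  L : List V4
  /-- the simple roots -/
  a : Fin 4 → V4
  /-- the roots which differ from `a k` by signs, up to sign -/
  A : Fin 4 → List V4
  /-- `2 / ‖a k‖²` -/
  κ : Fin 4 → K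
  /-- vertices with average `p k` -/
  pl : Fin 4 → List V4
  p : Fin 4 → V4
  /-- the normal of a facet -/
  nv : V4
  c : K
  /-- the normals of the facets of the path -/
  m₀ : V4
  path : List V4
  /-- `2 / ‖m + m'‖²` -/
  κ' : K
  /-- triples of vertices of ridges, with their dual vectors -/
  q : List ((V4 × V4 × V4) × (V4 × V4 × V4))
  w0 : Fin 4 → V4
  d0 : Fin 4 → V4
  wk : Fin 4 → V4
  dk : Fin 4 → V4
  x : V4
  y : V4

namespace Cert

variable (C : Cert)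

/-- `m` is the outer normal of a facet -/
def IsN (m : V4) : Prop := m.dot m = C.nv.dot C.nv ∧ m.abs.nn ∧
  ∀ v ∈ C.L, (C.c.sub (m.abs.dot v)).nonneg = true

/-- the vertex `v` lies in the facet with normal `m` -/
def On (m v : V4) : Prop := v.abs ∈ C.L ∧ m.dot v = C.c

/-- the facets with normals `m`, `m'` share the ridge with the vertices `t` -/
def Common (t : (V4 × V4 × V4) × (V4 × V4 × V4)) (m m' : V4) : Prop :=
  (C.On m t.1.1 ∧ C.On m t.1.2.1 ∧ C.On m t.1.2.2) ∧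
  (C.On m' t.1.1 ∧ C.On m' t.1.2.1 ∧ C.On m' t.1.2.2) ∧
  ((t.2.1.dot t.1.1).pos = true ∧ (t.2.2.1.dot t.1.2.1).pos = true ∧
    (t.2.2.2.dot t.1.2.2).pos = true) ∧
  (t.2.1.dot t.1.2.1 = ⟨0, 0⟩ ∧ t.2.1.dot t.1.2.2 = ⟨0, 0⟩ ∧ t.2.2.1.dot t.1.1 = ⟨0, 0⟩ ∧
    t.2.2.1.dot t.1.2.2 = ⟨0, 0⟩ ∧ t.2.2.2.dot t.1.1 = ⟨0, 0⟩ ∧ t.2.2.2.dot t.1.2.1 = ⟨0, 0⟩)

/-- the facets with normals `m`, `m'` are adjacent -/
def AdjC (m m' : V4) : Prop :=
  C.κ'.mul ((m.add m').dot (m.add m')) = ⟨2, 0⟩ ∧ ∃ t ∈ C.q, C.Common t m m'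

/-- the development -/
def dlK : List V4 → V4 → V4
  | [], y => y
  | [_], y => y
  | m :: m' :: l, y => V4.rf C.κ' (m.add m') (C.c.add C.c) (dlK (m' :: l) y)

/-- `w` is a tetrahedron of vertices of the facet with normal `m`, with dual basis `d` and `x` in its
interior -/
def InT (m : V4) (w d : Fin 4 → V4) (x : V4) : Prop :=
  (∀ k, C.On m (w k)) ∧ (∀ k, ((d k).dot (w k)).pos = true) ∧
  (∀ j k, j ≠ k → (d k).dot (w j) = ⟨0, 0⟩) ∧ m.dot x = C.c ∧ ∀ k, ((d k).dot x).pos = true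

instance (m : V4) : Decidable (C.IsN m) := by unfold IsN; infer_instance
instance (m v : V4) : Decidable (C.On m v) := by unfold On; infer_instance
instance (t : (V4 × V4 × V4) × (V4 × V4 × V4)) (m m' : V4) : Decidable (C.Common t m m') := by
  unfold Common; infer_instance
instance (m m' : V4) : Decidable (C.AdjC m m') := by unfold AdjC; infer_instance
instance (m : V4) (w d : Fin 4 → V4) (x : V4) : Decidable (C.InT m w d x) := by
  unfold InT; infer_instance

/-- the conditions on the reflection group -/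
structure Good : Prop where
  hκ : ∀ k, (C.κ k).mul ((C.a k).dot (C.a k)) = ⟨2, 0⟩
  Lnn : ∀ v ∈ C.L, v.nn
  hA : ∀ k, ∀ e0 e1 e2 e3 : Bool, V4.sg (e0, e1, e2, e3) (C.a k) ∈ C.A k ∨
    V4.sg (!e0, !e1, !e2, !e3) (C.a k) ∈ C.A k
  inv : ∀ k, ∀ a ∈ C.A k, ∀ v ∈ C.L, (V4.rf (C.κ k) a ⟨0, 0⟩ v).abs ∈ C.L
  hpl : ∀ k, C.pl k ≠ [] ∧ (∀ v ∈ C.pl k, v.abs ∈ C.L) ∧
    V4.smul ⟨(C.pl k).length, 0⟩ (C.p k) = sumV (C.pl k)
  pn : ∀ k, C.nv.dot (C.p k) = C.c
  ap_pos : ∀ k, ((C.a k).dot (C.p k)).pos = true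
  ap_zero : ∀ j k, j ≠ k → (C.a k).dot (C.p j) = ⟨0, 0⟩
  an : ∀ k, k ≠ 3 → (C.a k).dot C.nv = ⟨0, 0⟩
  nN : C.IsN C.nv
  c_pos : C.c.pos = true

variable {C}

lemma zero_toR : (⟨0, 0⟩ : K).toR = 0 := by simp [K.toR]

lemma mem_L_of {v : V4} (h : v.abs ∈ C.L) : v.toE ∈ SR C.L := mem_SR h

lemma neg_mem {x : E 4} (hx : x ∈ SR C.L) : -x ∈ SR C.L := by
  obtain ⟨v, hv, e, rfl⟩ := hx
  refine ⟨v, hv, (!e.1, !e.2.1, !e.2.2.1, !e.2.2.2), ?_⟩
  have hneg : ∀ (b : Bool) (x : K), -(K.toR (if b = true then x.neg else x)) =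
      K.toR (if (!b) = true then x.neg else x) := by
    intro b x
    cases b <;> simp [K.toR_neg]
  ext i
  fin_cases i
  · simpa [V4.toE, V4.sg] using hneg e.1 v.x0
  · simpa [V4.toE, V4.sg] using hneg e.2.1 v.x1
  · simpa [V4.toE, V4.sg] using hneg e.2.2.1 v.x2
  · simpa [V4.toE, V4.sg] using hneg e.2.2.2 v.x3

lemma isN_le (hL : ∀ v ∈ C.L, v.nn) {m : V4} (h : C.IsN m) :
    ∀ v ∈ SR C.L, ⟪m.toE, v⟫ ≤ C.c.toR := by
  rintro x ⟨v, hv, e, rfl⟩
  have h1 := K.toR_nonneg (h.2.2 v hv)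
  rw [K.toR_sub] at h1
  have h2 := V4.inner_le h.2.1 (hL v hv) e
  linarith

/-- the chamber data of a certificate -/
noncomputable def Good.data (h : C.Good) : Data (SR C.L) where
  a k := (C.a k).toE
  p k := (C.p k).toE
  nv := C.nv.toE
  c := C.c.toR
  fin := finite_SR _
  c_pos := K.toR_pos h.c_pos
  inv := by
    rintro k x ⟨v, hv, ⟨e0, e1, e2, e3⟩, rfl⟩
    rw [V4.refl_toE (h.hκ k), V4.rf_sg]
    refine sg_mem_SR ?_ _
    rcases h.hA k e0 e1 e2 e3 with h1 | h1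
    · exact mem_SR (h.inv k _ h1 v hv)
    · rw [← rf_negK]
      exact mem_SR (h.inv k _ h1 v hv)
  hp k := avg_mem (convex_convexHull ℝ _) (C.pl k)
    (fun v hv => subset_convexHull ℝ _ (mem_SR ((h.hpl k).2.1 v hv))) (h.hpl k).1 (h.hpl k).2.2
  pn k := by rw [V4.inner_toE, h.pn]
  ap_pos k := by rw [V4.inner_toE]; exact K.toR_pos (h.ap_pos k)
  ap_zero j k hjk := by rw [V4.inner_toE, h.ap_zero j k hjk, zero_toR]
  an k hk := by rw [V4.inner_toE, h.an k hk, zero_toR]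
  max := isN_le h.Lnn h.nN
  zero := by
    obtain ⟨v, hv⟩ : ∃ v, v ∈ C.pl 0 := by
      obtain ⟨v, l, hl⟩ := List.exists_cons_of_ne_nil (h.hpl 0).1
      exact ⟨v, by rw [hl]; simp⟩
    have h1 := mem_SR ((h.hpl 0).2.1 v hv)
    have h2 := neg_mem h1
    have h3 := (convex_convexHull ℝ (SR C.L)) (subset_convexHull ℝ _ h1) (subset_convexHull ℝ _ h2)
      (a := 1 / 2) (b := 1 / 2) (by norm_num) (by norm_num) (by norm_num)
    simpa using h3

lemma isN_mem (h : C.Good) {m : V4} (hm : C.IsN m) : m.toE ∈ h.data.N := by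
  refine ⟨?_, isN_le h.Lnn hm⟩
  have h1 : ‖m.toE‖ ^ 2 = ‖C.nv.toE‖ ^ 2 := by
    rw [← real_inner_self_eq_norm_sq, ← real_inner_self_eq_norm_sq, V4.inner_toE, V4.inner_toE, hm.1]
  exact (sq_eq_sq₀ (norm_nonneg _) (norm_nonneg _)).mp h1

lemma on_face (h : C.Good) {m v : V4} (hv : C.On m v) : v.toE ∈ h.data.face m.toE :=
  ⟨subset_convexHull ℝ _ (mem_SR hv.1), by rw [V4.inner_toE, hv.2]; rfl⟩

lemma adjC_adj (h : C.Good) {m m' : V4} (hm : C.IsN m) (hm' : C.IsN m') (hne : m ≠ m')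
    (hadj : C.AdjC m m') : (dualGraph (convexHull ℝ (SR C.L))).Adj (h.data.fac (isN_mem h hm))
      (h.data.fac (isN_mem h hm')) := by
  obtain ⟨-, ⟨⟨q0, q1, q2⟩, ⟨d0, d1, d2⟩⟩, -, ⟨a0, a1, a2⟩, ⟨b0, b1, b2⟩, ⟨p0, p1, p2⟩,
    z01, z02, z10, z12, z20, z21⟩ := hadj
  refine h.data.adj_fac _ _ (fun h => hne (V4.toE_inj h)) ![q0.toE, q1.toE, q2.toE]
    (linInd_of_dual _ ![d0.toE, d1.toE, d2.toE] ?_ ?_) ?_ ?_
  · intro k
    fin_cases k
    · exact (V4.inner_toE d0 q0).symm ▸ K.toR_pos p0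
    · exact (V4.inner_toE d1 q1).symm ▸ K.toR_pos p1
    · exact (V4.inner_toE d2 q2).symm ▸ K.toR_pos p2
  · have hz : ∀ {u v : V4}, u.dot v = ⟨0, 0⟩ → ⟪u.toE, v.toE⟫ = 0 := fun {u v} h => by
      rw [V4.inner_toE, h, zero_toR]
    intro j k hjk
    fin_cases j <;> fin_cases k
    · exact absurd rfl hjk
    · exact hz z10
    · exact hz z20
    · exact hz z01
    · exact absurd rfl hjk
    · exact hz z21
    · exact hz z02
    · exact hz z12
    · exact absurd rfl hjk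
  · intro i
    fin_cases i
    · exact on_face h a0
    · exact on_face h a1
    · exact on_face h a2
  · intro i
    fin_cases i
    · exact on_face h b0
    · exact on_face h b1
    · exact on_face h b2

lemma dl_toE : ∀ (l : List V4), l.IsChain C.AdjC → ∀ y : V4,
    dl C.c.toR (l.map V4.toE) y.toE = (C.dlK l y).toE
  | [], _, _ => rfl
  | [_], _, _ => rfl
  | m :: m' :: l, hl, y => by
    rw [List.isChain_cons_cons] at hl
    have ih := dl_toE (m' :: l) hl.2 y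
    change sig (m.toE + m'.toE) (2 * C.c.toR) (dl C.c.toR ((m' :: l).map V4.toE) y.toE) =
      (V4.rf C.κ' (m.add m') (C.c.add C.c) (C.dlK (m' :: l) y)).toE
    rw [ih, ← V4.sig_toE hl.1.1, V4.toE_add, K.toR_add, two_mul]

lemma inT_relint (h : C.Good) {m : V4} (hm : C.IsN m) {w d : Fin 4 → V4} {x : V4}
    (hx : C.InT m w d x) : x.toE ∈ intrinsicInterior ℝ (h.data.face m.toE) := by
  refine h.data.mem_relint (isN_mem h hm) (fun k => (w k).toE) (fun k => (d k).toE) ?_ ?_ ?_ ?_ ?_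
  · intro k
    rw [V4.inner_toE]
    exact K.toR_pos (hx.2.1 k)
  · intro j k hjk
    rw [V4.inner_toE, hx.2.2.1 j k hjk, zero_toR]
  · exact fun k => on_face h (hx.1 k)
  · rw [V4.inner_toE, hx.2.2.2.1]; rfl
  · intro k
    rw [V4.inner_toE]
    exact K.toR_pos (hx.2.2.2.2 k)

lemma chain_and {X : Type*} {R S : X → X → Prop} : ∀ l : List X, l.IsChain R → l.IsChain S →
    l.IsChain fun a b => R a b ∧ S a b
  | [], _, _ => List.isChain_nil
  | [_], _, _ => List.isChain_singleton _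
  | a :: b :: l, h, h' => by
    rw [List.isChain_cons_cons] at h h' ⊢
    exact ⟨⟨h.1, h'.1⟩, chain_and (b :: l) h.2 h'.2⟩

theorem main (h : C.Good) (hN : ∀ m ∈ C.m₀ :: C.path, C.IsN m)
    (hadj : (C.m₀ :: C.path).IsChain C.AdjC) (hnd : (C.m₀ :: C.path).Nodup) (hne : C.path ≠ [])
    (hx : C.InT C.m₀ C.w0 C.d0 C.x)
    (hy : C.InT ((C.m₀ :: C.path).getLast (List.cons_ne_nil _ _)) C.wk C.dk C.y)
    (hxy : C.dlK (C.m₀ :: C.path) C.y = C.x) : ¬ AllNet (convexHull ℝ (SR C.L)) := by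
  let f : {m : V4 // C.IsN m} → Facet (convexHull ℝ (SR C.L)) := fun m => h.data.fac (isN_mem h m.2)
  have hf : ∀ m, h.data.nrm (f m) = m.1.toE := fun m => h.data.nrm_fac _
  have hfi : Function.Injective f := by
    intro m m' hmm
    have := congrArg h.data.nrm hmm
    rw [hf, hf] at this
    exact Subtype.ext (V4.toE_inj this)
  let l : List {m : V4 // C.IsN m} := C.path.attach.map fun m =>
    ⟨m.1, hN _ (List.mem_cons_of_mem _ m.2)⟩
  let z : {m : V4 // C.IsN m} := ⟨C.m₀, hN _ List.mem_cons_self⟩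
  have hl : l.map Subtype.val = C.path := by
    simp only [l, List.map_map]
    conv_rhs => rw [← List.attach_map_subtype_val C.path]
    rfl
  have hzl : (z :: l).map Subtype.val = C.m₀ :: C.path := by rw [List.map_cons, hl]
  have hnrm : ((z :: l).map f).map h.data.nrm = (C.m₀ :: C.path).map V4.toE := by
    rw [List.map_map, ← hzl, List.map_map]
    exact List.map_congr_left fun m _ => hf m
  have hlast : ((z :: l).map f).getLast (by simp) =
      h.data.fac (isN_mem h (hN _ (List.getLast_mem (List.cons_ne_nil C.m₀ C.path)))) := by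
    rw [List.getLast_map]
    · change f _ = f ⟨(C.m₀ :: C.path).getLast (List.cons_ne_nil _ _),
        hN _ (List.getLast_mem (List.cons_ne_nil C.m₀ C.path))⟩
      congr 1
      apply Subtype.ext
      change ((z :: l).getLast _).1 = (C.m₀ :: C.path).getLast _
      have h1 : ((z :: l).map Subtype.val).getLast (by simp) = ((z :: l).getLast (by simp)).1 :=
        List.getLast_map _
      rw [← h1]
      simp only [hzl]
  refine h.data.not_allNet (f z) (l.map f) ?_ ?_ ?_ C.x.toE C.y.toE ?_ ?_ ?_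
  · rw [← List.map_cons, List.isChain_map]
    have h1 : (z :: l).IsChain fun m m' => C.AdjC m.1 m'.1 := by
      rw [← List.isChain_map (f := Subtype.val) (R := C.AdjC), hzl]
      exact hadj
    have h2 : (z :: l).Nodup := by
      refine List.Nodup.of_map Subtype.val ?_
      rw [hzl]
      exact hnd
    have h3 : (z :: l).IsChain fun m m' => m ≠ m' := List.Pairwise.isChain h2
    refine (chain_and _ h1 h3).imp fun m m' hmm => ?_
    exact adjC_adj h m.2 m'.2 (fun he => hmm.2 (Subtype.ext he)) hmm.1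
  · rw [← List.map_cons]
    refine List.Nodup.map hfi ?_
    refine List.Nodup.of_map Subtype.val ?_
    rw [hzl]
    exact hnd
  · intro h0
    apply hne
    rw [← hl]
    rw [List.map_eq_nil_iff] at h0
    rw [h0]
    rfl
  · exact inT_relint h (hN _ List.mem_cons_self) hx
  · have : ((f z) :: l.map f).getLast (List.cons_ne_nil _ _) =
        h.data.fac (isN_mem h (hN _ (List.getLast_mem (List.cons_ne_nil C.m₀ C.path)))) := hlast
    rw [this]
    exact inT_relint h (hN _ (List.getLast_mem (List.cons_ne_nil C.m₀ C.path))) hy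
  · rw [← List.map_cons, hnrm]
    change dl C.c.toR _ _ = _
    rw [dl_toE _ hadj, hxy]

end Cert

end Pool.Agent.H180.Net
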