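import Pool.Agent.H180.Net.Unfold

/-!
# Computation in `ℚ(√5)⁴`
-/

set_option autoImplicit false

namespace Pool.Agent.H180.Net

open Set Filter Topology
open scoped RealInnerProductSpace

/-- the number `a + b √5` -/
structure K where
  a : ℚ
  b : ℚ
deriving DecidableEq

namespace K

def add (x y : K) : K := ⟨x.a + y.a, x.b + y.b⟩
def sub (x y : K) : K := ⟨x.a - y.a, x.b - y.b⟩
def neg (x : K) : K := ⟨-x.a, -x.b⟩
def mul (x y : K) : K := ⟨x.a * y.a + 5 * (x.b * y.b), x.a * y.b + x.b * y.a⟩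

/-- the real number `a + b √5` -/
noncomputable def toR (x : K) : ℝ := x.a + x.b * √5

lemma sq5 : √5 * √5 = (5 : ℝ) := Real.mul_self_sqrt (by norm_num)

lemma toR_add (x y : K) : toR (add x y) = toR x + toR y := by
  simp only [toR, add]; push_cast; ring

lemma toR_sub (x y : K) : toR (sub x y) = toR x - toR y := by
  simp only [toR, sub]; push_cast; ring

lemma toR_neg (x : K) : toR (neg x) = -toR x := by
  simp only [toR, neg]; push_cast; ring

lemma toR_mul (x y : K) : toR (mul x y) = toR x * toR y := by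
  simp only [toR, mul]; push_cast
  linear_combination (-(x.b : ℝ) * y.b) * sq5

lemma toR_inj {x y : K} (h : toR x = toR y) : x = y := by
  have hirr : Irrational (√5 : ℝ) := by
    have := Nat.Prime.irrational_sqrt (p := 5) (by norm_num)
    exact_mod_cast this
  have hb : x.b = y.b := by
    by_contra hne
    apply hirr
    have h1 : (x.b : ℝ) - y.b ≠ 0 := by
      intro h0
      apply hne
      exact_mod_cast sub_eq_zero.mp h0
    refine ⟨(y.a - x.a) / (x.b - y.b), ?_⟩
    push_cast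
    rw [div_eq_iff h1]
    simp only [toR] at h
    linear_combination -h
  have ha : x.a = y.a := by
    simp only [toR, hb] at h
    exact_mod_cast add_right_cancel h
  cases x; cases y; simp_all

/-- positivity test -/
def pos (x : K) : Bool :=
  decide (0 < 10000000 * x.a + 22360679 * x.b) && decide (0 < 10000000 * x.a + 22360680 * x.b)

lemma toR_pos {x : K} (h : pos x = true) : 0 < toR x := by
  simp only [pos, Bool.and_eq_true, decide_eq_true_eq] at h
  have h1 : (0 : ℝ) < 10000000 * x.a + 22360679 * x.b := by exact_mod_cast h.1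
  have h2 : (0 : ℝ) < 10000000 * x.a + 22360680 * x.b := by exact_mod_cast h.2
  have l : (22360679 / 10000000 : ℝ) ≤ √5 := Real.le_sqrt_of_sq_le (by norm_num)
  have u : √5 ≤ (22360680 / 10000000 : ℝ) := by
    rw [Real.sqrt_le_left (by norm_num)]; norm_num
  unfold toR
  rcases le_total 0 (x.b : ℝ) with hb | hb
  · nlinarith
  · nlinarith

/-- nonnegativity test -/
def nonneg (x : K) : Bool := decide (x = ⟨0, 0⟩) || pos x

lemma toR_nonneg {x : K} (h : nonneg x = true) : 0 ≤ toR x := by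
  simp only [nonneg, Bool.or_eq_true, decide_eq_true_eq] at h
  rcases h with h | h
  · subst h; simp [toR]
  · exact (toR_pos h).le

/-- absolute value -/
def abs (x : K) : K := if nonneg x then x else neg x

end K

/-- vectors -/
structure V4 where
  x0 : K
  x1 : K
  x2 : K
  x3 : K
deriving DecidableEq

namespace V4

/-- the vector of `ℝ⁴` -/
noncomputable def toE (v : V4) : E 4 := !₂[v.x0.toR, v.x1.toR, v.x2.toR, v.x3.toR]

def dot (u v : V4) : K :=
  ((u.x0.mul v.x0).add (u.x1.mul v.x1)).add ((u.x2.mul v.x2).add (u.x3.mul v.x3))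

def add (u v : V4) : V4 := ⟨u.x0.add v.x0, u.x1.add v.x1, u.x2.add v.x2, u.x3.add v.x3⟩
def sub (u v : V4) : V4 := ⟨u.x0.sub v.x0, u.x1.sub v.x1, u.x2.sub v.x2, u.x3.sub v.x3⟩
def smul (t : K) (v : V4) : V4 := ⟨t.mul v.x0, t.mul v.x1, t.mul v.x2, t.mul v.x3⟩

lemma inner_toE (u v : V4) : ⟪toE u, toE v⟫ = (dot u v).toR := by
  simp only [toE, dot, PiLp.inner_apply, Fin.sum_univ_four, K.toR_add, K.toR_mul]
  simp
  ring

lemma toE_add (u v : V4) : toE (add u v) = toE u + toE v := by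
  ext i; fin_cases i <;> simp [toE, add, K.toR_add]

lemma toE_sub (u v : V4) : toE (sub u v) = toE u - toE v := by
  ext i; fin_cases i <;> simp [toE, sub, K.toR_sub]

lemma toE_smul (t : K) (v : V4) : toE (smul t v) = t.toR • toE v := by
  ext i; fin_cases i <;> simp [toE, smul, K.toR_mul]

lemma toE_inj {u v : V4} (h : toE u = toE v) : u = v := by
  have h0 := congrArg (fun f : E 4 => f 0) h
  have h1 := congrArg (fun f : E 4 => f 1) h
  have h2 := congrArg (fun f : E 4 => f 2) h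
  have h3 := congrArg (fun f : E 4 => f 3) h
  simp [toE] at h0 h1 h2 h3
  have k0 := K.toR_inj h0
  have k1 := K.toR_inj h1
  have k2 := K.toR_inj h2
  have k3 := K.toR_inj h3
  cases u; cases v; simp_all

/-- change of signs -/
def sg (e : Bool × Bool × Bool × Bool) (v : V4) : V4 :=
  ⟨if e.1 then v.x0.neg else v.x0, if e.2.1 then v.x1.neg else v.x1,
    if e.2.2.1 then v.x2.neg else v.x2, if e.2.2.2 then v.x3.neg else v.x3⟩

/-- coordinatewise absolute values -/
def abs (v : V4) : V4 := ⟨v.x0.abs, v.x1.abs, v.x2.abs, v.x3.abs⟩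

/-- `x - κ (⟪m, x⟫ - d) m` -/
def rf (κ : K) (m : V4) (d : K) (x : V4) : V4 := sub x (smul (κ.mul ((dot m x).sub d)) m)

lemma kappa {κ : K} {m : V4} (h : κ.mul (dot m m) = ⟨2, 0⟩) : κ.toR = 2 / ‖toE m‖ ^ 2 := by
  have h1 := congrArg K.toR h
  rw [K.toR_mul, ← inner_toE, real_inner_self_eq_norm_sq] at h1
  have h2 : (⟨2, 0⟩ : K).toR = 2 := by simp [K.toR]
  rw [h2] at h1
  rw [eq_div_iff]
  · exact h1
  · intro h0
    rw [h0] at h1
    norm_num at h1

lemma refl_toE {κ : K} {m : V4} (h : κ.mul (dot m m) = ⟨2, 0⟩) (x : V4) :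
    refl (toE m) (toE x) = toE (rf κ m ⟨0, 0⟩ x) := by
  rw [refl_apply, rf, toE_sub, toE_smul, K.toR_mul, K.toR_sub, ← inner_toE, kappa h]
  have : (⟨0, 0⟩ : K).toR = 0 := by simp [K.toR]
  rw [this, sub_zero]
  congr 2
  ring

lemma sig_toE {κ : K} {m : V4} (h : κ.mul (dot m m) = ⟨2, 0⟩) (d : K) (x : V4) :
    sig (toE m) d.toR (toE x) = toE (rf κ m d x) := by
  rw [sig_apply, rf, toE_sub, toE_smul, K.toR_mul, K.toR_sub, ← inner_toE, kappa h]
  congr 2
  ring

end V4

/-- the set of the vectors with the coordinates of an element of `L` up to signs -/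
def SR (L : List V4) : Set (E 4) := {x | ∃ v ∈ L, ∃ e, x = (V4.sg e v).toE}

lemma exists_sg (v : V4) : ∃ e, v = V4.sg e v.abs := by
  have key : ∀ x : K, ∃ b : Bool, x = if b then x.abs.neg else x.abs := by
    intro x
    unfold K.abs
    by_cases h : x.nonneg = true
    · exact ⟨false, by simp [h]⟩
    · refine ⟨true, ?_⟩
      simp only [h]
      cases x
      simp [K.neg]
  obtain ⟨b0, h0⟩ := key v.x0
  obtain ⟨b1, h1⟩ := key v.x1
  obtain ⟨b2, h2⟩ := key v.x2
  obtain ⟨b3, h3⟩ := key v.x3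
  refine ⟨(b0, b1, b2, b3), ?_⟩
  cases v
  simp only [V4.sg, V4.abs, V4.mk.injEq]
  exact ⟨h0, h1, h2, h3⟩

lemma mem_SR {L : List V4} {v : V4} (h : v.abs ∈ L) : v.toE ∈ SR L := by
  obtain ⟨e, he⟩ := exists_sg v
  exact ⟨v.abs, h, e, by rw [← he]⟩

lemma finite_SR (L : List V4) : (SR L).Finite := by
  have h : SR L ⊆ (fun p : V4 × (Bool × Bool × Bool × Bool) => (V4.sg p.2 p.1).toE) ''
      ({v | v ∈ L} ×ˢ univ) := by
    rintro x ⟨v, hv, e, rfl⟩
    exact ⟨(v, e), ⟨hv, mem_univ _⟩, rfl⟩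
  exact ((L.finite_toSet.prod finite_univ).image _).subset h

/-! ### signs -/

lemma K.neg_neg (x : K) : x.neg.neg = x := by
  cases x; simp [K.neg]

lemma K.mul_neg (x y : K) : x.mul y.neg = x.neg.mul y := by
  simp only [K.mul, K.neg, K.mk.injEq]
  constructor <;> ring

lemma K.neg_mul (x y : K) : x.neg.mul y = (x.mul y).neg := by
  simp only [K.mul, K.neg, K.mk.injEq]
  constructor <;> ring

namespace V4

lemma dot_sg (e : Bool × Bool × Bool × Bool) (u v : V4) : dot u (sg e v) = dot (sg e u) v := by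
  obtain ⟨e0, e1, e2, e3⟩ := e
  have h : ∀ (b : Bool) (x y : K), x.mul (if b = true then y.neg else y) =
      (if b = true then x.neg else x).mul y := by
    intro b x y
    cases b
    · simp
    · simp [K.mul_neg]
  simp only [dot, sg, h]

lemma toE_sg_apply (e : Bool × Bool × Bool × Bool) (v : V4) (i : Fin 4) :
    (sg e v).toE i = (if ![e.1, e.2.1, e.2.2.1, e.2.2.2] i = true then -1 else 1) * v.toE i := by
  obtain ⟨e0, e1, e2, e3⟩ := e
  fin_cases i
  · cases e0 <;> simp [toE, sg, K.toR_neg]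
  · cases e1 <;> simp [toE, sg, K.toR_neg]
  · cases e2 <;> simp [toE, sg, K.toR_neg]
  · cases e3 <;> simp [toE, sg, K.toR_neg]

lemma rf_sg (κ : K) (m : V4) (e : Bool × Bool × Bool × Bool) (v : V4) :
    (rf κ m ⟨0, 0⟩ (sg e v)).toE = (sg e (rf κ (sg e m) ⟨0, 0⟩ v)).toE := by
  ext i
  rw [toE_sg_apply, rf, rf, toE_sub, toE_sub, toE_smul, toE_smul, dot_sg]
  simp only [PiLp.sub_apply, PiLp.smul_apply, smul_eq_mul, toE_sg_apply]
  split_ifs <;> ring

/-- all coordinates are nonnegative -/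
def nn (v : V4) : Prop :=
  v.x0.nonneg = true ∧ v.x1.nonneg = true ∧ v.x2.nonneg = true ∧ v.x3.nonneg = true

instance (v : V4) : Decidable v.nn := by unfold nn; infer_instance

end V4

lemma K.abs_toR {x : K} (h : x.abs.nonneg = true) : x.abs.toR = |x.toR| := by
  have h1 := K.toR_nonneg h
  unfold K.abs at h1 ⊢
  split_ifs at h1 ⊢ with h2
  · rw [abs_of_nonneg h1]
  · rw [K.toR_neg] at h1 ⊢
    rw [abs_of_nonpos (by linarith)]

lemma V4.inner_le {m v : V4} (hm : m.abs.nn) (hv : v.nn) (e : Bool × Bool × Bool × Bool) :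
    ⟪m.toE, (V4.sg e v).toE⟫ ≤ (m.abs.dot v).toR := by
  have h : ∀ (b : Bool) (x y : K), x.abs.nonneg = true → y.nonneg = true →
      x.toR * (if b = true then y.neg else y).toR ≤ x.abs.toR * y.toR := by
    intro b x y hx hy
    rw [K.abs_toR hx]
    have h1 := K.toR_nonneg hy
    cases b
    · simp only [Bool.false_eq_true, if_false]
      exact mul_le_mul_of_nonneg_right (le_abs_self _) h1
    · simp only [if_true, K.toR_neg]
      rw [mul_neg, ← neg_mul]
      exact mul_le_mul_of_nonneg_right (neg_le_abs _) h1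
  rw [V4.inner_toE]
  simp only [V4.dot, K.toR_add, K.toR_mul, V4.sg, V4.abs]
  have h0 := h e.1 m.x0 v.x0 hm.1 hv.1
  have h1 := h e.2.1 m.x1 v.x1 hm.2.1 hv.2.1
  have h2 := h e.2.2.1 m.x2 v.x2 hm.2.2.1 hv.2.2.1
  have h3 := h e.2.2.2 m.x3 v.x3 hm.2.2.2 hv.2.2.2
  linarith

lemma sg_mem_SR {L : List V4} {v : V4} (h : v.toE ∈ SR L) (e : Bool × Bool × Bool × Bool) :
    (V4.sg e v).toE ∈ SR L := by
  obtain ⟨u, hu, e', he⟩ := h
  refine ⟨u, hu, (xor e.1 e'.1, xor e.2.1 e'.2.1, xor e.2.2.1 e'.2.2.1, xor e.2.2.2 e'.2.2.2), ?_⟩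
  have h2 : ∀ i, v.toE i = (V4.sg e' u).toE i := fun i => by rw [he]
  ext i
  rw [V4.toE_sg_apply, V4.toE_sg_apply, h2, V4.toE_sg_apply]
  obtain ⟨e0, e1, e2, e3⟩ := e
  obtain ⟨f0, f1, f2, f3⟩ := e'
  fin_cases i
  · cases e0 <;> cases f0 <;> simp
  · cases e1 <;> cases f1 <;> simp
  · cases e2 <;> cases f2 <;> simp
  · cases e3 <;> cases f3 <;> simp

lemma rf_negK (κ : K) (e : Bool × Bool × Bool × Bool) (m v : V4) :
    (V4.rf κ (V4.sg (!e.1, !e.2.1, !e.2.2.1, !e.2.2.2) m) ⟨0, 0⟩ v).toE =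
      (V4.rf κ (V4.sg e m) ⟨0, 0⟩ v).toE := by
  have hs : (V4.sg (!e.1, !e.2.1, !e.2.2.1, !e.2.2.2) m).toE = -(V4.sg e m).toE := by
    ext i
    rw [V4.toE_sg_apply, PiLp.neg_apply, V4.toE_sg_apply]
    obtain ⟨e0, e1, e2, e3⟩ := e
    fin_cases i
    · cases e0 <;> simp
    · cases e1 <;> simp
    · cases e2 <;> simp
    · cases e3 <;> simp
  have h0 : (⟨0, 0⟩ : K).toR = 0 := by simp [K.toR]
  rw [V4.rf, V4.rf, V4.toE_sub, V4.toE_sub, V4.toE_smul, V4.toE_smul, K.toR_mul, K.toR_mul,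
    K.toR_sub, K.toR_sub, ← V4.inner_toE, ← V4.inner_toE, hs, h0, inner_neg_left, smul_neg,
    sub_zero, sub_zero, mul_neg, neg_smul, neg_neg]

end Pool.Agent.H180.Net
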