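import Mathlib

/-!
# Ridge unfoldings of convex polytopes

The definitions for the all-net property of convex polytopes in `ℝⁿ`.
-/

set_option autoImplicit false

namespace Pool.Agent.H180.Net

open Set

/-- Euclidean `n`-space -/
abbrev E (n : ℕ) : Type := EuclideanSpace ℝ (Fin n)

variable {n : ℕ}

/-- the inner product `⟪u, x⟫` -/
noncomputable def ip (u x : E n) : ℝ := inner ℝ u x

/-- the affine dimension of a (nonempty) set -/
noncomputable def dim (S : Set (E n)) : ℕ := Module.finrank ℝ (vectorSpan ℝ S)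

/-- `F` is a `k`-dimensional face of the convex polytope `P`: the nonempty set of the points of `P` at
which some linear functional `⟪u, ·⟫` takes its maximum on `P`, of affine dimension `k`. -/
def IsFace (P F : Set (E n)) (k : ℕ) : Prop :=
  F.Nonempty ∧ (∃ u : E n, F = {x | x ∈ P ∧ ∀ y ∈ P, ip u y ≤ ip u x}) ∧ dim F = k

/-- The facets of `P` are its faces of dimension `n - 1`. -/
structure Facet (P : Set (E n)) where
  /-- the set of the points of the facet -/
  carrier : Set (E n)
  isFace : IsFace P carrier (n - 1)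

/-- The dual graph: the vertices are the facets, two different facets are adjacent if they share a ridge
(a face of dimension `n - 2`). -/
def dualGraph (P : Set (E n)) : SimpleGraph (Facet P) where
  Adj F G := F ≠ G ∧ ∃ R, IsFace P R (n - 2) ∧ R ⊆ F.carrier ∧ R ⊆ G.carrier
  symm := ⟨fun _ _ h => ⟨h.1.symm, h.2.imp fun _ hR => ⟨hR.1, hR.2.2, hR.2.1⟩⟩⟩
  loopless := ⟨fun _ h => h.1 rfl⟩

/-- a hyperplane of `ℝⁿ` -/
def IsHyperplane (H : Set (E n)) : Prop := ∃ (u : E n) (c : ℝ), u ≠ 0 ∧ H = {x | ip u x = c}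

/-- Some hyperplane `⟪u, x⟫ = c` has `A` on one side and `B` on the other side, and contains neither of
them. -/
def OnTwoSides (A B : Set (E n)) : Prop :=
  ∃ (u : E n) (c : ℝ), (∀ x ∈ A, ip u x ≤ c) ∧ (∃ x ∈ A, ip u x < c) ∧
    (∀ x ∈ B, c ≤ ip u x) ∧ ∃ x ∈ B, c < ip u x

/-- The facets `F` and `G` are laid down by the isometries `f` and `g` such that they stay joined along
their common ridge, and are on the two different sides of it. -/
def Hinged {P : Set (E n)} (F G : Facet P) (f g : E n → E n) : Prop :=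
  EqOn f g (F.carrier ∩ G.carrier) ∧ OnTwoSides (f '' F.carrier) (g '' G.carrier)

/-- A ridge unfolding of `P`. The ridges which are not cut form a spanning tree `T` of the dual graph. The
facet `F` is developed into the hyperplane `H` by (the restriction to `F` of) the isometry `dev F` of `ℝⁿ`;
facets joined by an edge of `T` stay joined along their common ridge and are laid down on the two different
sides of this ridge. -/
structure RidgeUnfolding (P : Set (E n)) where
  /-- the tree of the ridges which are not cut -/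
  T : SimpleGraph (Facet P)
  /-- the hyperplane into which the facets are developed -/
  H : Set (E n)
  /-- the developing isometries -/
  dev : Facet P → E n → E n
  isTree : T.IsTree
  le_dual : T ≤ dualGraph P
  hyperplane : IsHyperplane H
  isom : ∀ F, Isometry (dev F)
  dev_subset : ∀ F, dev F '' F.carrier ⊆ H
  hinged : ∀ F G, T.Adj F G → Hinged F G (dev F) (dev G)

/-- The image of a facet under the development. -/
def RidgeUnfolding.image {P : Set (E n)} (U : RidgeUnfolding P) (F : Facet P) : Set (E n) :=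
  U.dev F '' F.carrier

/-- the relative interior -/
def relint (S : Set (E n)) : Set (E n) := intrinsicInterior ℝ S

/-- The unfolding is a net: the relative interiors of the images of different facets are disjoint. -/
def RidgeUnfolding.IsNet {P : Set (E n)} (U : RidgeUnfolding P) : Prop :=
  ∀ F G : Facet P, F ≠ G → Disjoint (relint (U.image F)) (relint (U.image G))

/-- `P` is all-net: every ridge unfolding is a net. -/
def AllNet (P : Set (E n)) : Prop := ∀ U : RidgeUnfolding P, U.IsNet

/-- the vectors obtained from `b` by permuting the coordinates and changing signs -/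
def perms (b : Fin n → ℝ) : Set (E n) :=
  {x | ∃ (σ : Equiv.Perm (Fin n)) (ε : Fin n → ℤˣ), ∀ i, x i = ((ε i : ℤ) : ℝ) * b (σ i)}

/-- the vectors obtained from `b` by an even permutation of the coordinates and changing signs -/
def evenPerms (b : Fin n → ℝ) : Set (E n) :=
  {x | ∃ (σ : Equiv.Perm (Fin n)) (ε : Fin n → ℤˣ), Equiv.Perm.sign σ = 1 ∧
    ∀ i, x i = ((ε i : ℤ) : ℝ) * b (σ i)}

/-- the golden ratio -/
noncomputable def φ : ℝ := (1 + √5) / 2

/-- The 24-cell: the convex hull of the 24 permutations of `(±1, ±1, 0, 0)`. -/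
def cell24 : Set (E 4) := convexHull ℝ (perms ![1, 1, 0, 0])

/-- The 600-cell: the convex hull of the 120 points `(±2, 0, 0, 0)` and its permutations,
`(±1, ±1, ±1, ±1)`, and the even permutations of `(±φ, ±1, ±φ⁻¹, 0)`. -/
noncomputable def cell600 : Set (E 4) :=
  convexHull ℝ (perms ![2, 0, 0, 0] ∪ perms ![1, 1, 1, 1] ∪ evenPerms ![φ, 1, φ⁻¹, 0])

/-- The 120-cell: the convex hull of the 600 points: all permutations of `(±2, ±2, 0, 0)`,
`(±1, ±1, ±1, ±√5)`, `(±φ⁻², ±φ, ±φ, ±φ)`, `(±φ⁻¹, ±φ⁻¹, ±φ⁻¹, ±φ²)` and all even permutations of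
`(0, ±φ⁻², ±1, ±φ²)`, `(0, ±φ⁻¹, ±φ, ±√5)`, `(±φ⁻¹, ±1, ±φ, ±2)`. -/
noncomputable def cell120 : Set (E 4) :=
  convexHull ℝ (perms ![2, 2, 0, 0] ∪ perms ![1, 1, 1, √5] ∪ perms ![φ⁻¹ ^ 2, φ, φ, φ] ∪
    perms ![φ⁻¹, φ⁻¹, φ⁻¹, φ ^ 2] ∪ evenPerms ![0, φ⁻¹ ^ 2, 1, φ ^ 2] ∪
    evenPerms ![0, φ⁻¹, φ, √5] ∪ evenPerms ![φ⁻¹, 1, φ, 2])

end Pool.Agent.H180.Net
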