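import Pool.Agent.H180.Net.Theory

/-!
# The facets of the polytope and its dual graph
-/

set_option autoImplicit false

namespace Pool.Agent.H180.Net

open Set Filter Topology
open scoped RealInnerProductSpace

lemma finrank_ge {k : ℕ} {S : Set (E 4)} (q : Fin (k + 1) → E 4) (hq : LinearIndependent ℝ q)
    (hS : ∀ i, q i ∈ S) : k ≤ Module.finrank ℝ (vectorSpan ℝ S) := by
  have h1 := hq.affineIndependent.finrank_vectorSpan (n := k) (by simp)
  rw [← h1]
  refine Submodule.finrank_mono (vectorSpan_mono ℝ ?_)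
  rintro _ ⟨i, rfl⟩
  exact hS i

lemma vectorSpan_orth {S : Set (E 4)} {m : E 4} {c : ℝ} (h : ∀ x ∈ S, ⟪m, x⟫ = c) {v : E 4}
    (hv : v ∈ vectorSpan ℝ S) : ⟪m, v⟫ = 0 := by
  have : vectorSpan ℝ S ≤ LinearMap.ker (innerSL ℝ m).toLinearMap := by
    rw [vectorSpan_def, Submodule.span_le]
    rintro _ ⟨x, hx, y, hy, rfl⟩
    simp [inner_sub_right, h x hx, h y hy]
  exact this hv

lemma finrank_le_one {S : Set (E 4)} {m : E 4} {c : ℝ} (hm : m ≠ 0) (h : ∀ x ∈ S, ⟪m, x⟫ = c) :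
    Module.finrank ℝ (vectorSpan ℝ S) ≤ 3 := by
  have h1 : vectorSpan ℝ S ≤ (ℝ ∙ m)ᗮ := by
    intro v hv
    rw [Submodule.mem_orthogonal_singleton_iff_inner_right]
    exact vectorSpan_orth h hv
  have h2 := Submodule.finrank_mono h1
  have h3 := Submodule.finrank_add_finrank_orthogonal (ℝ ∙ m)
  rw [finrank_span_singleton hm, finrank_euclideanSpace_fin] at h3
  omega

lemma finrank_le_two {S : Set (E 4)} {m m' : E 4} {c : ℝ} (hc : c ≠ 0) (hm : m ≠ m')
    (hne : S.Nonempty) (h : ∀ x ∈ S, ⟪m, x⟫ = c) (h' : ∀ x ∈ S, ⟪m', x⟫ = c) :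
    Module.finrank ℝ (vectorSpan ℝ S) ≤ 2 := by
  have hli : LinearIndependent ℝ ![m, m'] := by
    rw [LinearIndependent.pair_iff]
    intro s t hst
    obtain ⟨x, hx⟩ := hne
    have h1 : ⟪s • m + t • m', x⟫ = 0 := by rw [hst, inner_zero_left]
    rw [inner_add_left, real_inner_smul_left, real_inner_smul_left, h x hx, h' x hx, ← add_mul] at h1
    have h2 : s + t = 0 := (mul_eq_zero.mp h1).resolve_right hc
    have h3 : t = -s := by linarith
    subst h3
    have h4 : s • (m - m') = 0 := by rw [smul_sub, ← hst, neg_smul, sub_eq_add_neg]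
    rcases smul_eq_zero.mp h4 with h5 | h5
    · simp [h5]
    · exact absurd (sub_eq_zero.mp h5) hm
  have h1 : vectorSpan ℝ S ≤ (Submodule.span ℝ (range ![m, m']))ᗮ := by
    intro v hv
    rw [Submodule.mem_orthogonal]
    intro u hu
    induction hu using Submodule.span_induction with
    | mem x hx =>
      obtain ⟨i, rfl⟩ := hx
      fin_cases i
      · exact vectorSpan_orth h hv
      · exact vectorSpan_orth h' hv
    | zero => exact inner_zero_left _
    | add x y _ _ hx hy => rw [inner_add_left, hx, hy, add_zero]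
    | smul a x _ hx => rw [real_inner_smul_left, hx, mul_zero]
  have h2 := Submodule.finrank_mono h1
  have h3 := Submodule.finrank_add_finrank_orthogonal (Submodule.span ℝ (range ![m, m']))
  rw [finrank_span_eq_card hli, finrank_euclideanSpace_fin, Fintype.card_fin] at h3
  omega

namespace Data

variable {V : Set (E 4)} (D : Data V)

/-- the face with outer normal `m` -/
def face (m : E 4) : Set (E 4) := {x | x ∈ convexHull ℝ V ∧ ⟪m, x⟫ = D.c}

lemma W_p {w : E 4 ≃ₗᵢ[ℝ] E 4} (hw : w ∈ D.W) (k : Fin 4) : w (D.p k) ∈ D.face (w D.nv) :=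
  ⟨D.maps_hull hw (D.hp k), by rw [w.inner_map_map]; exact D.pn k⟩

lemma linInd_W (w : E 4 ≃ₗᵢ[ℝ] E 4) : LinearIndependent ℝ fun k => w (D.p k) :=
  linInd_of_dual _ (fun k => w (D.a k)) (fun k => by rw [w.inner_map_map]; exact D.ap_pos k)
    (fun j k h => by rw [w.inner_map_map]; exact D.ap_zero j k h)

lemma N_ne {m : E 4} (hm : m ∈ D.N) : m ≠ 0 := by
  rw [← norm_ne_zero_iff, hm.1, norm_ne_zero_iff]
  exact D.nv_ne

lemma face_nonempty {m : E 4} (hm : m ∈ D.N) : (D.face m).Nonempty := by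
  obtain ⟨w, hw, rfl⟩ := D.exists_W hm
  exact ⟨_, D.W_p hw 0⟩

lemma face_exposed {m : E 4} (hm : m ∈ D.N) :
    D.face m = {x | x ∈ convexHull ℝ V ∧ ∀ y ∈ convexHull ℝ V, ip m y ≤ ip m x} := by
  unfold ip
  ext x
  constructor
  · rintro ⟨h1, h2⟩
    refine ⟨h1, fun y hy => ?_⟩
    rw [h2]
    exact D.N_hull hm hy
  · rintro ⟨h1, h2⟩
    refine ⟨h1, le_antisymm (D.N_hull hm h1) ?_⟩
    obtain ⟨y, hy1, hy2⟩ := D.face_nonempty hm
    have := h2 y hy1
    rwa [hy2] at this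

lemma face_convex (m : E 4) : Convex ℝ (D.face m) :=
  (convex_convexHull ℝ V).inter
    (convex_hyperplane (innerSL ℝ m).toLinearMap.isLinear D.c)

lemma finrank_face {m : E 4} (hm : m ∈ D.N) :
    Module.finrank ℝ (vectorSpan ℝ (D.face m)) = 3 := by
  refine le_antisymm (finrank_le_one (D.N_ne hm) fun x hx => hx.2) ?_
  obtain ⟨w, hw, rfl⟩ := D.exists_W hm
  exact finrank_ge _ (D.linInd_W w) fun k => D.W_p hw k

lemma isFace_face {m : E 4} (hm : m ∈ D.N) : IsFace (convexHull ℝ V) (D.face m) (4 - 1) :=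
  ⟨D.face_nonempty hm, ⟨m, D.face_exposed hm⟩, D.finrank_face hm⟩

lemma face_inj {m m' : E 4} (hm : m ∈ D.N) (h : D.face m ⊆ D.face m') : m = m' := by
  obtain ⟨w, hw, rfl⟩ := D.exists_W hm
  have h1 : ∀ k, ⟪w⁻¹ m' - D.nv, D.p k⟫ = 0 := by
    intro k
    have h2 := (h (D.W_p hw k)).2
    rw [inner_sub_left, D.pn k]
    have h3 : ⟪w⁻¹ m', D.p k⟫ = ⟪m', w (D.p k)⟫ := by rw [inner_inv, inv_inv]
    rw [h3, h2, sub_self]
  have h2 : ∀ y : E 4, ⟪w⁻¹ m' - D.nv, y⟫ = 0 := by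
    intro y
    rw [expand D.p D.a D.ap_pos D.ap_zero y, inner_sum]
    refine Finset.sum_eq_zero fun k _ => ?_
    rw [inner_smul_right, h1, mul_zero]
  have h3 : w⁻¹ m' = D.nv := by
    have := h2 (w⁻¹ m' - D.nv)
    exact sub_eq_zero.mp (inner_self_eq_zero.mp this)
  rw [← h3]
  exact w.apply_symm_apply m'

lemma exists_lt {z : E 4} (hz : z ∈ convexHull ℝ V) (l : E 4 →L[ℝ] ℝ) (hl : l ≠ 0)
    (hmax : ∀ y ∈ convexHull ℝ V, l y ≤ l z) : ∃ m ∈ D.N, ⟪m, z⟫ = D.c := by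
  by_contra hcon
  push Not at hcon
  have hlt : ∀ m ∈ D.N, ⟪m, z⟫ < D.c := fun m hm => lt_of_le_of_ne (D.N_hull hm hz) (hcon m hm)
  apply hl
  have hle : ∀ v, l v ≤ 0 := by
    intro v
    have h1 : ∀ m ∈ D.N, ∀ᶠ δ : ℝ in 𝓝[>] 0, ⟪m, z + δ • v⟫ ≤ D.c := by
      intro m hm
      have h2 : Tendsto (fun δ : ℝ => ⟪m, z + δ • v⟫) (𝓝[>] 0) (𝓝 ⟪m, z + (0 : ℝ) • v⟫) := by
        refine Tendsto.mono_left ?_ nhdsWithin_le_nhds
        exact (by fun_prop : Continuous fun δ : ℝ => ⟪m, z + δ • v⟫).tendsto 0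
      rw [zero_smul, add_zero] at h2
      exact (h2.eventually (gt_mem_nhds (hlt m hm))).mono fun _ h => le_of_lt h
    have h2 := (D.finite_N.eventually_all (l := 𝓝[>] (0 : ℝ))).mpr h1
    obtain ⟨δ, h3, h4⟩ := (h2.and self_mem_nhdsWithin).exists
    have h5 := hmax _ ((D.mem_hull_iff' _).mpr h3)
    rw [map_add, map_smul, smul_eq_mul] at h5
    have h6 : (0 : ℝ) < δ := h4
    nlinarith
  ext v
  refine le_antisymm (hle v) ?_
  have := hle (-v)
  rw [map_neg] at this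
  simpa using this

lemma eq_face {F : Set (E 4)} (hF : IsFace (convexHull ℝ V) F (4 - 1)) :
    ∃ m ∈ D.N, F = D.face m := by
  obtain ⟨hne, ⟨u, hu⟩, hrk⟩ := hF
  have hl : F = {x | x ∈ convexHull ℝ V ∧ ∀ y ∈ convexHull ℝ V, innerSL ℝ u y ≤ innerSL ℝ u x} := hu
  generalize innerSL ℝ u = l at hl
  have hrk : Module.finrank ℝ (vectorSpan ℝ F) = 3 := hrk
  have hFP : F ⊆ convexHull ℝ V := fun x hx => by
    rw [hl] at hx
    exact hx.1
  have hconv : Convex ℝ F := by
    have h1 : IsExposed ℝ (convexHull ℝ V) F := fun _ => ⟨l, hl⟩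
    exact h1.convex (convex_convexHull ℝ V)
  have hlmax : ∀ z ∈ F, ∀ y ∈ convexHull ℝ V, l y ≤ l z := by
    intro z hz
    rw [hl] at hz
    exact hz.2
  have hl0 : l ≠ 0 := by
    rintro rfl
    have h1 : F = convexHull ℝ V := by rw [hl]; ext x; simp
    have h2 : Module.finrank ℝ (vectorSpan ℝ F) = 4 := by
      have h3 : vectorSpan ℝ F = ⊤ := by
        rw [eq_top_iff]
        intro x _
        rw [expand D.p D.a D.ap_pos D.ap_zero x]
        refine Submodule.sum_mem _ fun k _ => Submodule.smul_mem _ _ ?_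
        have := vsub_mem_vectorSpan ℝ (h1 ▸ D.hp k : D.p k ∈ F) (h1 ▸ D.zero : (0 : E 4) ∈ F)
        simpa using this
      rw [h3, finrank_top, finrank_euclideanSpace_fin]
    omega
  have hcover : ∀ z ∈ F, ∃ m ∈ D.N, ⟪m, z⟫ = D.c := fun z hz =>
    D.exists_lt (hFP hz) l hl0 (hlmax z hz)
  have hsub : ∃ m ∈ D.N, ∀ x ∈ F, ⟪m, x⟫ = D.c := by
    by_contra hcon
    push Not at hcon
    choose! y hy1 hy2 using hcon
    have hNe : D.finite_N.toFinset.Nonempty := ⟨D.nv, by simpa using D.nv_mem⟩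
    have hcard : (0 : ℝ) < D.finite_N.toFinset.card := by
      exact_mod_cast Finset.card_pos.mpr hNe
    have hz : ∑ m ∈ D.finite_N.toFinset, ((D.finite_N.toFinset.card : ℝ)⁻¹) • y m ∈ F := by
      refine hconv.sum_mem (fun _ _ => by positivity) ?_ (fun m hm => hy1 m (by simpa using hm))
      rw [Finset.sum_const, nsmul_eq_mul, mul_inv_cancel₀ hcard.ne']
    obtain ⟨m, hm, hm2⟩ := hcover _ hz
    rw [inner_sum] at hm2
    have h1 : ∑ i ∈ D.finite_N.toFinset, ⟪m, ((D.finite_N.toFinset.card : ℝ)⁻¹) • y i⟫ <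
        ∑ i ∈ D.finite_N.toFinset, ((D.finite_N.toFinset.card : ℝ)⁻¹) * D.c := by
      refine Finset.sum_lt_sum (fun i hi => ?_) ⟨m, by simpa using hm, ?_⟩
      · rw [inner_smul_right]
        exact mul_le_mul_of_nonneg_left (D.N_hull hm (hFP (hy1 i (by simpa using hi))))
          (by positivity)
      · rw [inner_smul_right]
        exact mul_lt_mul_of_pos_left
          (lt_of_le_of_ne (D.N_hull hm (hFP (hy1 m hm))) (hy2 m hm)) (by positivity)
    rw [hm2, Finset.sum_const, nsmul_eq_mul, ← mul_assoc, mul_inv_cancel₀ hcard.ne', one_mul] at h1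
    exact lt_irrefl _ h1
  obtain ⟨m, hm, hmF⟩ := hsub
  refine ⟨m, hm, Subset.antisymm (fun x hx => ⟨hFP hx, hmF x hx⟩) ?_⟩
  have hspan : vectorSpan ℝ F = vectorSpan ℝ (D.face m) := by
    apply Submodule.eq_of_le_of_finrank_eq
    · exact vectorSpan_mono ℝ fun x hx => ⟨hFP hx, hmF x hx⟩
    · rw [hrk, D.finrank_face hm]
  obtain ⟨x₀, hx₀⟩ := hne
  intro y hy
  have h1 : y -ᵥ x₀ ∈ vectorSpan ℝ F := by
    rw [hspan]
    exact vsub_mem_vectorSpan ℝ hy ⟨hFP hx₀, hmF x₀ hx₀⟩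
  have h2 : vectorSpan ℝ F ≤ LinearMap.ker l.toLinearMap := by
    rw [vectorSpan_def, Submodule.span_le]
    rintro _ ⟨a, ha, b, hb, rfl⟩
    have := le_antisymm (hlmax b hb a (hFP ha)) (hlmax a ha b (hFP hb))
    simp [this]
  have h3 : l (y - x₀) = 0 := h2 h1
  rw [map_sub, sub_eq_zero] at h3
  rw [hl]
  exact ⟨hy.1, fun z hz => by rw [h3]; exact hlmax x₀ hx₀ z hz⟩

/-- the facet with outer normal `m` -/
def fac {m : E 4} (hm : m ∈ D.N) : Facet (convexHull ℝ V) := ⟨D.face m, D.isFace_face hm⟩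

lemma facet_ext {P : Set (E 4)} {F G : Facet P} (h : F.1 = G.1) : F = G := by
  cases F; cases G; cases h; rfl

lemma exists_fac (F : Facet (convexHull ℝ V)) : ∃ m, ∃ hm : m ∈ D.N, F = D.fac hm := by
  obtain ⟨m, hm, h⟩ := D.eq_face F.2
  exact ⟨m, hm, facet_ext h⟩

/-- the outer normal of a facet -/
noncomputable def nrm (F : Facet (convexHull ℝ V)) : E 4 := (D.exists_fac F).choose

lemma nrm_mem (F : Facet (convexHull ℝ V)) : D.nrm F ∈ D.N := (D.exists_fac F).choose_spec.choose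

lemma fac_nrm (F : Facet (convexHull ℝ V)) : F = D.fac (D.nrm_mem F) :=
  (D.exists_fac F).choose_spec.choose_spec

lemma coe_eq (F : Facet (convexHull ℝ V)) : F.1 = D.face (D.nrm F) :=
  congrArg Facet.carrier (D.fac_nrm F)

lemma nrm_fac {m : E 4} (hm : m ∈ D.N) : D.nrm (D.fac hm) = m := by
  have h : D.face m = D.face (D.nrm (D.fac hm)) := D.coe_eq (D.fac hm)
  exact (D.face_inj hm h.subset).symm

lemma adj_fac {m m' : E 4} (hm : m ∈ D.N) (hm' : m' ∈ D.N) (hne : m ≠ m') (q : Fin 3 → E 4)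
    (hq : LinearIndependent ℝ q) (h : ∀ i, q i ∈ D.face m) (h' : ∀ i, q i ∈ D.face m') :
    (dualGraph (convexHull ℝ V)).Adj (D.fac hm) (D.fac hm') := by
  refine ⟨fun heq => hne ?_, D.face m ∩ D.face m', ⟨⟨q 0, h 0, h' 0⟩, ⟨m + m', ?_⟩, ?_⟩,
    inter_subset_left, inter_subset_right⟩
  · have := congrArg D.nrm heq
    rwa [D.nrm_fac, D.nrm_fac] at this
  · unfold ip
    ext x
    constructor
    · rintro ⟨h1, h2⟩
      refine ⟨h1.1, fun y hy => ?_⟩
      rw [inner_add_left, inner_add_left, h1.2, h2.2]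
      exact add_le_add (D.N_hull hm hy) (D.N_hull hm' hy)
    · rintro ⟨h1, h2⟩
      have h3 := h2 _ (h 0).1
      rw [inner_add_left, inner_add_left, (h 0).2, (h' 0).2] at h3
      have h4 := D.N_hull hm h1
      have h5 := D.N_hull hm' h1
      exact ⟨⟨h1, by linarith⟩, ⟨h1, by linarith⟩⟩
  · refine le_antisymm (finrank_le_two D.c_pos.ne' hne ⟨q 0, h 0, h' 0⟩ (fun x hx => hx.1.2)
      fun x hx => hx.2.2) ?_
    exact finrank_ge q hq fun i => ⟨h i, h' i⟩

lemma a3_ne : ⟪D.a 3, D.nv⟫ ≠ 0 := by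
  intro h0
  apply D.nv_ne
  rw [expand D.p D.a D.ap_pos D.ap_zero D.nv]
  refine Finset.sum_eq_zero fun k _ => ?_
  have : ⟪D.a k, D.nv⟫ = 0 := by
    by_cases hk : k = 3
    · rw [hk]; exact h0
    · exact D.an k hk
  rw [this, zero_div, zero_smul]

lemma refl_nv {k : Fin 4} (hk : k ≠ 3) : refl (D.a k) D.nv = D.nv := by
  rw [refl_apply, D.an k hk]
  simp

lemma refl_p {j k : Fin 4} (hjk : j ≠ k) : refl (D.a k) (D.p j) = D.p j := by
  rw [refl_apply, D.ap_zero j k hjk]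
  simp

lemma refl_inner (a x y : E 4) : ⟪refl a x, y⟫ = ⟪x, refl a y⟫ := by
  conv_lhs => rw [← refl_invol a y]
  exact (refl a).inner_map_map _ _

lemma step_adj {w : E 4 ≃ₗᵢ[ℝ] E 4} (hw : w ∈ D.W) (k : Fin 4) :
    (dualGraph (convexHull ℝ V)).Reachable (D.fac (D.W_N hw D.nv_mem))
      (D.fac (D.W_N (D.W.mul_mem hw (D.refl_mem k)) D.nv_mem)) := by
  by_cases hk : k = 3
  · subst hk
    refine SimpleGraph.Adj.reachable (D.adj_fac _ _ ?_ (fun i : Fin 3 => w (D.p i.castSucc)) ?_ ?_ ?_)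
    · intro h
      have h1 : D.nv = refl (D.a 3) D.nv := w.injective h
      have h2 : (2 * ⟪D.a 3, D.nv⟫ / ‖D.a 3‖ ^ 2) • D.a 3 = 0 := by
        rw [refl_apply] at h1
        exact sub_eq_self.mp h1.symm
      rcases smul_eq_zero.mp h2 with h3 | h3
      · rcases div_eq_zero_iff.mp h3 with h4 | h4
        · exact D.a3_ne (by linarith)
        · have : ‖D.a 3‖ = 0 := pow_eq_zero_iff (two_ne_zero) |>.mp h4
          exact D.a3_ne (by rw [norm_eq_zero.mp this, inner_zero_left])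
      · exact D.a3_ne (by rw [h3, inner_zero_left])
    · exact (D.linInd_W w).comp _ (Fin.castSucc_injective 3)
    · exact fun i => D.W_p hw _
    · intro i
      refine ⟨D.maps_hull hw (D.hp _), ?_⟩
      change ⟪w (refl (D.a 3) D.nv), w (D.p i.castSucc)⟫ = D.c
      rw [w.inner_map_map, refl_inner, D.refl_p, D.pn]
      exact (Fin.castSucc_lt_last i).ne
  · have h : w D.nv = (w * refl (D.a k)) D.nv := by
      change w D.nv = w (refl (D.a k) D.nv)
      rw [D.refl_nv hk]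
    have h2 : D.fac (D.W_N hw D.nv_mem) = D.fac (D.W_N (D.W.mul_mem hw (D.refl_mem k)) D.nv_mem) := by
      congr 1
    rw [h2]

include D in
lemma connected : (dualGraph (convexHull ℝ V)).Connected := by
  have key : ∀ w (hw : w ∈ D.W), (dualGraph (convexHull ℝ V)).Reachable (D.fac D.nv_mem)
      (D.fac (D.W_N hw D.nv_mem)) := by
    intro w hw
    induction hw using Subgroup.closure_induction_right with
    | one => exact SimpleGraph.Reachable.refl _
    | mul_right x hx y hy ih =>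
      obtain ⟨k, rfl⟩ := hy
      exact ih.trans (D.step_adj hx k)
    | mul_inv_cancel x hx y hy ih =>
      obtain ⟨k, rfl⟩ := hy
      have h : (refl (D.a k))⁻¹ = refl (D.a k) := Submodule.reflection_inv
      have h2 := ih.trans (D.step_adj hx k)
      have h3 : x * (refl (D.a k))⁻¹ = x * refl (D.a k) := by rw [h]
      convert h2 using 2
      change (x * (refl (D.a k))⁻¹) D.nv = _
      rw [h3]
  have : Nonempty (Facet (convexHull ℝ V)) := ⟨D.fac D.nv_mem⟩
  refine ⟨fun F G => ?_⟩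
  have h : ∀ F : Facet (convexHull ℝ V), (dualGraph (convexHull ℝ V)).Reachable (D.fac D.nv_mem) F := by
    intro F
    obtain ⟨m, hm, rfl⟩ := D.exists_fac F
    obtain ⟨w, hw, rfl⟩ := D.exists_W hm
    exact key w hw
  exact (h F).symm.trans (h G)

end Data

end Pool.Agent.H180.Net
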