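import Pool.Agent.H180.Net.Cert

/-!
# The vertex sets as lists
-/

set_option autoImplicit false

namespace Pool.Agent.H180.Net

open Set

/-- the vector with the coordinates `b` permuted by `σ` -/
def pv (b : Fin 4 → K) (σ : Equiv.Perm (Fin 4)) : V4 := ⟨b (σ 0), b (σ 1), b (σ 2), b (σ 3)⟩

lemma toE_pv (b : Fin 4 → K) (σ : Equiv.Perm (Fin 4)) (e : Bool × Bool × Bool × Bool) (i : Fin 4) :
    (V4.sg e (pv b σ)).toE i =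
      ((((![e.1, e.2.1, e.2.2.1, e.2.2.2] i).rec (1 : ℤˣ) (-1) : ℤˣ) : ℤ) : ℝ) * (b (σ i)).toR := by
  obtain ⟨e0, e1, e2, e3⟩ := e
  fin_cases i
  · cases e0 <;> simp [V4.toE, V4.sg, pv, K.toR_neg]
  · cases e1 <;> simp [V4.toE, V4.sg, pv, K.toR_neg]
  · cases e2 <;> simp [V4.toE, V4.sg, pv, K.toR_neg]
  · cases e3 <;> simp [V4.toE, V4.sg, pv, K.toR_neg]

lemma exists_bools (ε : Fin 4 → ℤˣ) : ∃ e : Bool × Bool × Bool × Bool, ∀ i,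
    ((![e.1, e.2.1, e.2.2.1, e.2.2.2] i).rec (1 : ℤˣ) (-1) : ℤˣ) = ε i := by
  have h : ∀ u : ℤˣ, ∃ b : Bool, (b.rec (1 : ℤˣ) (-1) : ℤˣ) = u := by
    intro u
    rcases Int.units_eq_one_or u with h | h
    · exact ⟨false, h.symm⟩
    · exact ⟨true, h.symm⟩
  obtain ⟨e0, h0⟩ := h (ε 0)
  obtain ⟨e1, h1⟩ := h (ε 1)
  obtain ⟨e2, h2⟩ := h (ε 2)
  obtain ⟨e3, h3⟩ := h (ε 3)
  refine ⟨(e0, e1, e2, e3), fun i => ?_⟩
  fin_cases i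
  · exact h0
  · exact h1
  · exact h2
  · exact h3

lemma perms_eq (b : Fin 4 → ℝ) (c : Fin 4 → K) (hb : ∀ i, b i = (c i).toR) (L : List V4)
    (h1 : ∀ σ : Equiv.Perm (Fin 4), pv c σ ∈ L) (h2 : ∀ v ∈ L, ∃ σ, pv c σ = v) :
    perms b = SR L := by
  ext x
  constructor
  · rintro ⟨σ, ε, h⟩
    obtain ⟨e, he⟩ := exists_bools ε
    refine ⟨pv c σ, h1 σ, e, ?_⟩
    ext i
    rw [toE_pv, he, h, hb]
  · rintro ⟨v, hv, e, rfl⟩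
    obtain ⟨σ, rfl⟩ := h2 v hv
    exact ⟨σ, _, fun i => by rw [toE_pv, hb]⟩

lemma evenPerms_eq (b : Fin 4 → ℝ) (c : Fin 4 → K) (hb : ∀ i, b i = (c i).toR) (L : List V4)
    (h1 : ∀ σ : Equiv.Perm (Fin 4), Equiv.Perm.sign σ = 1 → pv c σ ∈ L)
    (h2 : ∀ v ∈ L, ∃ σ, Equiv.Perm.sign σ = 1 ∧ pv c σ = v) :
    evenPerms b = SR L := by
  ext x
  constructor
  · rintro ⟨σ, ε, hs, h⟩
    obtain ⟨e, he⟩ := exists_bools ε
    refine ⟨pv c σ, h1 σ hs, e, ?_⟩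
    ext i
    rw [toE_pv, he, h, hb]
  · rintro ⟨v, hv, e, rfl⟩
    obtain ⟨σ, hs, rfl⟩ := h2 v hv
    exact ⟨σ, _, hs, fun i => by rw [toE_pv, hb]⟩

lemma SR_append (L L' : List V4) : SR (L ++ L') = SR L ∪ SR L' := by
  ext x
  constructor
  · rintro ⟨v, hv, e, rfl⟩
    rcases List.mem_append.mp hv with h | h
    · exact Or.inl ⟨v, h, e, rfl⟩
    · exact Or.inr ⟨v, h, e, rfl⟩
  · rintro (⟨v, hv, e, rfl⟩ | ⟨v, hv, e, rfl⟩)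
    · exact ⟨v, List.mem_append_left _ hv, e, rfl⟩
    · exact ⟨v, List.mem_append_right _ hv, e, rfl⟩

/-! ### the constants -/

lemma c0 : (0 : ℝ) = (⟨0, 0⟩ : K).toR := by simp [K.toR]
lemma c1 : (1 : ℝ) = (⟨1, 0⟩ : K).toR := by simp [K.toR]
lemma c2 : (2 : ℝ) = (⟨2, 0⟩ : K).toR := by simp [K.toR]
lemma cs : √5 = (⟨0, 1⟩ : K).toR := by simp [K.toR]
lemma cφ : φ = (⟨1 / 2, 1 / 2⟩ : K).toR := by simp only [φ, K.toR]; push_cast; ring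
lemma ci : φ⁻¹ = (⟨-1 / 2, 1 / 2⟩ : K).toR := by
  have h : φ * (⟨-1 / 2, 1 / 2⟩ : K).toR = 1 := by
    rw [cφ, ← K.toR_mul]
    simp only [K.mul, K.toR]
    norm_num
  exact inv_eq_of_mul_eq_one_right h
lemma ci2 : φ⁻¹ ^ 2 = (⟨3 / 2, -1 / 2⟩ : K).toR := by
  rw [ci, pow_two, ← K.toR_mul]
  congr 1
  simp only [K.mul]
  norm_num
lemma cφ2 : φ ^ 2 = (⟨3 / 2, 1 / 2⟩ : K).toR := by
  rw [cφ, pow_two, ← K.toR_mul]
  congr 1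
  simp only [K.mul]
  norm_num

end Pool.Agent.H180.Net
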