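import Pool.Agent.H180.Net.Defs

/-!
# Polytopes with a reflection group acting simply transitively on the flags: facets
-/

set_option autoImplicit false

namespace Pool.Agent.H180.Net

open Set
open scoped RealInnerProductSpace

section Dual

variable {ι : Type*} [Fintype ι]

lemma linInd_of_dual (p a : ι → E 4) (hpos : ∀ k, 0 < ⟪a k, p k⟫)
    (hz : ∀ j k, j ≠ k → ⟪a k, p j⟫ = 0) : LinearIndependent ℝ p := by
  rw [Fintype.linearIndependent_iff]
  intro g hg i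
  have h : ⟪a i, ∑ j, g j • p j⟫ = 0 := by rw [hg, inner_zero_right]
  rw [inner_sum, Finset.sum_eq_single i (fun j _ hj => by
    rw [inner_smul_right, hz j i hj, mul_zero]) (fun h => absurd (Finset.mem_univ i) h),
    inner_smul_right] at h
  exact (mul_eq_zero.mp h).resolve_right (hpos i).ne'

lemma expand (p a : Fin 4 → E 4) (hpos : ∀ k, 0 < ⟪a k, p k⟫)
    (hz : ∀ j k, j ≠ k → ⟪a k, p j⟫ = 0) (x : E 4) :
    x = ∑ k, (⟪a k, x⟫ / ⟪a k, p k⟫) • p k := by
  have hli := linInd_of_dual p a hpos hz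
  let b := basisOfLinearIndependentOfCardEqFinrank hli (by simp)
  have hb : ∀ i, b i = p i := fun i => by simp [b]
  have h1 : x = ∑ k, (b.repr x k) • p k := by
    conv_lhs => rw [← b.sum_repr x]
    exact Finset.sum_congr rfl fun k _ => by rw [hb]
  have h2 : ∀ k, b.repr x k = ⟪a k, x⟫ / ⟪a k, p k⟫ := by
    intro k
    rw [eq_div_iff (hpos k).ne']
    conv_rhs => rw [h1]
    rw [inner_sum, Finset.sum_eq_single k (fun j _ hj => by
      rw [inner_smul_right, hz j k hj, mul_zero]) (fun h => absurd (Finset.mem_univ k) h),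
      inner_smul_right]
  conv_lhs => rw [h1]
  exact Finset.sum_congr rfl fun k _ => by rw [h2]

end Dual

/-- the reflection which changes the sign of `a` -/
noncomputable def refl (a : E 4) : E 4 ≃ₗᵢ[ℝ] E 4 := Submodule.reflection (ℝ ∙ a)ᗮ

lemma refl_apply (a x : E 4) : refl a x = x - (2 * ⟪a, x⟫ / ‖a‖ ^ 2) • a := by
  unfold refl
  rw [Submodule.reflection_orthogonal_apply, Submodule.reflection_singleton_apply,
    neg_sub, two_smul, ← add_smul]
  have h : ((‖a‖ : ℝ) : ℝ) = ‖a‖ := rfl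
  congr 2
  simp only [RCLike.ofReal_real_eq_id, id]
  ring

lemma refl_invol (a x : E 4) : refl a (refl a x) = x := Submodule.reflection_reflection _ x

/-- A finite set of points of `ℝ⁴` which is invariant under four reflections, with the chamber data of
the group generated by them. -/
structure Data (V : Set (E 4)) where
  a : Fin 4 → E 4
  p : Fin 4 → E 4
  nv : E 4
  c : ℝ
  fin : V.Finite
  c_pos : 0 < c
  inv : ∀ k, ∀ v ∈ V, refl (a k) v ∈ V
  hp : ∀ k, p k ∈ convexHull ℝ V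
  pn : ∀ k, ⟪nv, p k⟫ = c
  ap_pos : ∀ k, 0 < ⟪a k, p k⟫
  ap_zero : ∀ j k, j ≠ k → ⟪a k, p j⟫ = 0
  an : ∀ k, k ≠ 3 → ⟪a k, nv⟫ = 0
  max : ∀ v ∈ V, ⟪nv, v⟫ ≤ c
  zero : (0 : E 4) ∈ convexHull ℝ V

namespace Data

variable {V : Set (E 4)} (D : Data V)

/-- the group generated by the four reflections -/
noncomputable def W : Subgroup (E 4 ≃ₗᵢ[ℝ] E 4) := Subgroup.closure (range fun k => refl (D.a k))

lemma refl_mem (k : Fin 4) : refl (D.a k) ∈ D.W := Subgroup.subset_closure ⟨k, rfl⟩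

lemma maps {w : E 4 ≃ₗᵢ[ℝ] E 4} (hw : w ∈ D.W) : ∀ v ∈ V, w v ∈ V := by
  induction hw using Subgroup.closure_induction with
  | mem x hx =>
    obtain ⟨k, rfl⟩ := hx
    exact D.inv k
  | one => exact fun v hv => hv
  | mul x y _ _ hx hy => exact fun v hv => hx _ (hy v hv)
  | inv x _ hx =>
    intro v hv
    have h : SurjOn x V V := (D.fin.injOn_iff_bijOn_of_mapsTo hx).mp x.injective.injOn |>.surjOn
    obtain ⟨u, hu, rfl⟩ := h hv
    have : x⁻¹ (x u) = u := x.symm_apply_apply u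
    rwa [this]

lemma maps_hull {w : E 4 ≃ₗᵢ[ℝ] E 4} (hw : w ∈ D.W) {x : E 4} (hx : x ∈ convexHull ℝ V) :
    w x ∈ convexHull ℝ V := by
  have h1 : w x ∈ (w.toLinearEquiv.toLinearMap : E 4 →ₗ[ℝ] E 4) '' convexHull ℝ V := ⟨x, hx, rfl⟩
  rw [LinearMap.image_convexHull] at h1
  refine convexHull_mono ?_ h1
  rintro _ ⟨v, hv, rfl⟩
  exact D.maps hw v hv

lemma inner_inv (w : E 4 ≃ₗᵢ[ℝ] E 4) (x y : E 4) : ⟪w x, y⟫ = ⟪x, w⁻¹ y⟫ := by
  have : w (w⁻¹ y) = y := w.apply_symm_apply y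
  conv_lhs => rw [← this]
  exact w.inner_map_map _ _

include D in
lemma span_V : Submodule.span ℝ V = ⊤ := by
  rw [eq_top_iff]
  intro x _
  rw [expand D.p D.a D.ap_pos D.ap_zero x]
  refine Submodule.sum_mem _ fun k _ => Submodule.smul_mem _ _ ?_
  exact convexHull_min Submodule.subset_span (Submodule.convex _) (D.hp k)

lemma finite_W : Finite D.W := by
  have : Finite V := D.fin
  let f : D.W → (V → V) := fun w v => ⟨w.1 v, D.maps w.2 v v.2⟩
  refine Finite.of_injective f fun w w' h => ?_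
  apply Subtype.ext
  apply LinearIsometryEquiv.toLinearEquiv_injective
  apply LinearEquiv.toLinearMap_injective
  refine LinearMap.ext_on D.span_V ?_
  intro v hv
  have := congrFun h ⟨v, hv⟩
  exact congrArg Subtype.val this

lemma nv_ne : D.nv ≠ 0 := by
  intro h
  have := D.pn 0
  rw [h, inner_zero_left] at this
  exact D.c_pos.ne this

lemma chamber (x : E 4) : ∃ w ∈ D.W, ∀ k, 0 ≤ ⟪D.a k, w x⟫ := by
  have := D.finite_W
  let ρ : E 4 := ∑ k, D.p k
  have hρ : ∀ k, ⟪D.a k, ρ⟫ = ⟪D.a k, D.p k⟫ := fun k => by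
    rw [inner_sum, Finset.sum_eq_single k (fun j _ hj => D.ap_zero j k hj)
      (fun h => absurd (Finset.mem_univ k) h)]
  obtain ⟨w, hw⟩ := Finite.exists_max fun w : D.W => ⟪ρ, w.1 x⟫
  refine ⟨w.1, w.2, fun k => ?_⟩
  have h1 := hw (⟨refl (D.a k), D.refl_mem k⟩ * w)
  have h2 : (((⟨refl (D.a k), D.refl_mem k⟩ : D.W) * w).1 : E 4 ≃ₗᵢ[ℝ] E 4) x =
    refl (D.a k) (w.1 x) := rfl
  simp only [h2] at h1
  rw [refl_apply, inner_sub_right, inner_smul_right, real_inner_comm, real_inner_comm _ ρ,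
    real_inner_comm ρ] at h1
  have h3 : 0 < ⟪D.a k, ρ⟫ := by rw [hρ]; exact D.ap_pos k
  have ha : 0 < ‖D.a k‖ ^ 2 := by
    have : D.a k ≠ 0 := fun h => by
      have := D.ap_pos k
      rw [h, inner_zero_left] at this
      exact lt_irrefl _ this
    positivity
  have h4 : 0 ≤ (2 * ⟪D.a k, w.1 x⟫ / ‖D.a k‖ ^ 2) * ⟪D.a k, ρ⟫ := by
    rw [real_inner_comm ρ (D.a k)] at *
    linarith
  have h5 : 0 ≤ 2 * ⟪D.a k, w.1 x⟫ / ‖D.a k‖ ^ 2 := nonneg_of_mul_nonneg_left h4 h3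
  have h6 : 0 ≤ 2 * ⟪D.a k, w.1 x⟫ := by
    have := mul_nonneg h5 ha.le
    rwa [div_mul_cancel₀ _ ha.ne'] at this
  linarith


/-- the polytope is the intersection of the half-spaces `⟪w n, x⟫ ≤ c` -/
lemma mem_hull_iff (x : E 4) : x ∈ convexHull ℝ V ↔ ∀ w ∈ D.W, ⟪w D.nv, x⟫ ≤ D.c := by
  constructor
  · intro hx w hw
    rw [inner_inv]
    have h1 := D.maps_hull (D.W.inv_mem hw) hx
    have h2 : convexHull ℝ V ⊆ {y | ⟪D.nv, y⟫ ≤ D.c} :=
      convexHull_min (fun v hv => D.max v hv)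
        (convex_halfSpace_le (innerSL ℝ D.nv).toLinearMap.isLinear D.c)
    exact h2 h1
  · intro h
    obtain ⟨w, hw, hc⟩ := D.chamber x
    have h1 : ⟪D.nv, w x⟫ ≤ D.c := by
      have := h _ (D.W.inv_mem hw)
      rwa [inner_inv, inv_inv] at this
    have h2 : w x ∈ convexHull ℝ V := by
      have hexp := expand D.p D.a D.ap_pos D.ap_zero (w x)
      set μ : Fin 4 → ℝ := fun k => ⟪D.a k, w x⟫ / ⟪D.a k, D.p k⟫ with hμ
      have hμ0 : ∀ k, 0 ≤ μ k := fun k => div_nonneg (hc k) (D.ap_pos k).le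
      have hsum : (∑ k, μ k) * D.c = ⟪D.nv, w x⟫ := by
        conv_rhs => rw [hexp]
        rw [inner_sum, Finset.sum_mul]
        exact Finset.sum_congr rfl fun k _ => by rw [inner_smul_right, D.pn k]
      have hle : ∑ k, μ k ≤ 1 := by
        by_contra hcon
        push Not at hcon
        have := D.c_pos
        nlinarith
      rw [hexp]
      have h3 := (convex_convexHull ℝ V).sum_mem (t := (Finset.univ : Finset (Option (Fin 4))))
        (w := fun o => o.elim (1 - ∑ k, μ k) μ) (z := fun o => o.elim 0 D.p)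
        (by
          rintro (_ | k) _
          · exact sub_nonneg.mpr hle
          · exact hμ0 k)
        (by rw [Fintype.sum_option]; simp)
        (by
          rintro (_ | k) _
          · exact D.zero
          · exact D.hp k)
      rw [Fintype.sum_option] at h3
      simpa using h3
    have h3 := D.maps_hull (D.W.inv_mem hw) h2
    have h4 : w⁻¹ (w x) = x := w.symm_apply_apply x
    rwa [h4] at h3

/-- The outer normals of the facets: the vectors as long as `n` with `⟪m, v⟫ ≤ c` on `V`. -/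
def N : Set (E 4) := {m | ‖m‖ = ‖D.nv‖ ∧ ∀ v ∈ V, ⟪m, v⟫ ≤ D.c}

lemma N_hull {m : E 4} (hm : m ∈ D.N) {x : E 4} (hx : x ∈ convexHull ℝ V) : ⟪m, x⟫ ≤ D.c :=
  convexHull_min (fun v hv => hm.2 v hv)
    (convex_halfSpace_le (innerSL ℝ m).toLinearMap.isLinear D.c) hx

lemma nv_mem : D.nv ∈ D.N := ⟨rfl, D.max⟩

lemma W_N {w : E 4 ≃ₗᵢ[ℝ] E 4} (hw : w ∈ D.W) {m : E 4} (hm : m ∈ D.N) : w m ∈ D.N := by
  refine ⟨by rw [w.norm_map]; exact hm.1, fun v hv => ?_⟩
  rw [inner_inv]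
  exact hm.2 _ (D.maps (D.W.inv_mem hw) v hv)

lemma exists_W {m : E 4} (hm : m ∈ D.N) : ∃ w ∈ D.W, w D.nv = m := by
  obtain ⟨w, hw, hc⟩ := D.chamber m
  have hm' := D.W_N hw hm
  have hexp := expand D.p D.a D.ap_pos D.ap_zero (w m)
  set μ : Fin 4 → ℝ := fun k => ⟪D.a k, w m⟫ / ⟪D.a k, D.p k⟫ with hμ
  have hμ0 : ∀ k, 0 ≤ μ k := fun k => div_nonneg (hc k) (D.ap_pos k).le
  have hy : ∀ y : E 4, ⟪y, w m⟫ = ∑ k, μ k * ⟪y, D.p k⟫ := fun y => by
    conv_lhs => rw [hexp]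
    rw [inner_sum]
    exact Finset.sum_congr rfl fun k _ => by rw [inner_smul_right]
  have h1 : ‖w m‖ ^ 2 ≤ ⟪D.nv, w m⟫ := by
    rw [← real_inner_self_eq_norm_sq, hy, hy]
    refine Finset.sum_le_sum fun k _ => ?_
    rw [D.pn k]
    exact mul_le_mul_of_nonneg_left (D.N_hull hm' (D.hp k)) (hμ0 k)
  have h2 : w m = D.nv := by
    have h3 : ‖w m‖ = ‖D.nv‖ := hm'.1
    have h4 : ‖w m - D.nv‖ ^ 2 ≤ 0 := by
      rw [@norm_sub_sq_real, real_inner_comm, h3]
      rw [h3] at h1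
      linarith
    have h5 : ‖w m - D.nv‖ = 0 := by
      have := sq_nonneg ‖w m - D.nv‖
      have h6 : ‖w m - D.nv‖ ^ 2 = 0 := le_antisymm h4 this
      exact pow_eq_zero_iff (two_ne_zero) |>.mp h6
    exact sub_eq_zero.mp (norm_eq_zero.mp h5)
  refine ⟨w⁻¹, D.W.inv_mem hw, ?_⟩
  rw [← h2]
  exact w.symm_apply_apply m

lemma finite_N : D.N.Finite := by
  have := D.finite_W
  refine (finite_range fun w : D.W => w.1 D.nv).subset ?_
  intro m hm
  obtain ⟨w, hw, rfl⟩ := D.exists_W hm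
  exact ⟨⟨w, hw⟩, rfl⟩

lemma mem_hull_iff' (x : E 4) : x ∈ convexHull ℝ V ↔ ∀ m ∈ D.N, ⟪m, x⟫ ≤ D.c := by
  rw [D.mem_hull_iff]
  constructor
  · intro h m hm
    obtain ⟨w, hw, rfl⟩ := D.exists_W hm
    exact h w hw
  · intro h w hw
    exact h _ (D.W_N hw D.nv_mem)

end Data

end Pool.Agent.H180.Net
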