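import Pool.Agent.H180.Net.Faces

/-!
# Unfoldings along a spanning tree
-/

set_option autoImplicit false

namespace Pool.Agent.H180.Net

open Set Filter Topology SimpleGraph
open scoped RealInnerProductSpace

section Graph

variable {X : Type*}

/-- the graph of the consecutive elements of a list -/
def listGraph : List X → SimpleGraph X
  | [] => ⊥
  | [_] => ⊥
  | u :: v :: l => listGraph (v :: l) ⊔ edge u v

lemma listGraph_le {G : SimpleGraph X} : ∀ l : List X, l.IsChain G.Adj → listGraph l ≤ G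
  | [], _ => bot_le
  | [_], _ => bot_le
  | u :: v :: l, h => by
    rw [List.isChain_cons_cons] at h
    refine sup_le (listGraph_le (v :: l) h.2) ?_
    exact (edge_le_iff G).mpr (Or.inr h.1)

lemma not_adj_listGraph {u : X} : ∀ l : List X, u ∉ l → ∀ w, ¬ (listGraph l).Adj u w
  | [], _, _ => id
  | [_], _, _ => id
  | a :: b :: l, h, w => by
    simp only [List.mem_cons, not_or] at h
    rintro (h1 | h1)
    · exact not_adj_listGraph (b :: l) (by simp [h.2.1, h.2.2]) w h1
    · rw [edge_adj] at h1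
      rcases h1.1 with h2 | h2
      · exact h.1 h2.1
      · exact h.2.1 h2.1

lemma listGraph_acyclic : ∀ l : List X, l.Nodup → (listGraph l).IsAcyclic
  | [], _ => isAcyclic_bot
  | [_], _ => isAcyclic_bot
  | u :: v :: l, h => by
    rw [List.nodup_cons] at h
    refine IsAcyclic.sup_edge_of_not_reachable ?_ (listGraph_acyclic (v :: l) h.2)
    rintro ⟨p⟩
    cases p with
    | nil => exact h.1 (by simp)
    | cons h1 _ => exact not_adj_listGraph _ h.1 _ h1

lemma chain_of_le {T : SimpleGraph X} : ∀ l : List X, l.Nodup → listGraph l ≤ T → l.IsChain T.Adj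
  | [], _, _ => List.isChain_nil
  | [_], _, _ => List.isChain_singleton _
  | u :: v :: l, hn, h => by
    rw [List.isChain_cons_cons]
    rw [List.nodup_cons] at hn
    refine ⟨?_, chain_of_le (v :: l) hn.2 (le_sup_left.trans h)⟩
    apply h
    refine Or.inr ?_
    rw [edge_adj]
    exact ⟨Or.inl ⟨rfl, rfl⟩, fun h => hn.1 (by simp [h])⟩

lemma exists_walk {T : SimpleGraph X} : ∀ (l : List X) (u : X), (u :: l).IsChain T.Adj →
    ∃ p : T.Walk u ((u :: l).getLast (List.cons_ne_nil _ _)), p.support = u :: l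
  | [], u, _ => ⟨Walk.nil, rfl⟩
  | v :: l, u, h => by
    rw [List.isChain_cons_cons] at h
    obtain ⟨p, hp⟩ := exists_walk l v h.2
    exact ⟨Walk.cons h.1 p, by simp [hp]⟩

/-- A path of a connected graph is contained in a spanning tree. -/
lemma exists_tree {G : SimpleGraph X} (hG : G.Connected) (u : X) (l : List X)
    (hc : (u :: l).IsChain G.Adj) (hn : (u :: l).Nodup) :
    ∃ T ≤ G, T.IsTree ∧ ∃ p : T.Walk u ((u :: l).getLast (List.cons_ne_nil _ _)),
      p.IsPath ∧ p.support = u :: l := by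
  obtain ⟨T, h1, h2, h3⟩ := hG.exists_isTree_le_of_le_of_isAcyclic (listGraph_le _ hc)
    (listGraph_acyclic _ hn)
  obtain ⟨p, hp⟩ := exists_walk l u (chain_of_le _ hn h1)
  refine ⟨T, h2, h3, p, ?_, hp⟩
  rw [Walk.isPath_def, hp]
  exact hn

end Graph

/-- the path of a tree from `r` to `F` -/
noncomputable def tpath {X : Type*} {T : SimpleGraph X} (hT : T.IsTree) (r F : X) : T.Walk r F :=
  (hT.existsUnique_path r F).choose

lemma tpath_isPath {X : Type*} {T : SimpleGraph X} (hT : T.IsTree) (r F : X) :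
    (tpath hT r F).IsPath := (hT.existsUnique_path r F).choose_spec.1

lemma tpath_unique {X : Type*} {T : SimpleGraph X} (hT : T.IsTree) {r F : X} {p : T.Walk r F}
    (hp : p.IsPath) : p = tpath hT r F := (hT.existsUnique_path r F).choose_spec.2 p hp

lemma tpath_adj {X : Type*} {T : SimpleGraph X} (hT : T.IsTree) (r : X) {F G : X} (h : T.Adj F G) :
    (tpath hT r G).support = (tpath hT r F).support ++ [G] ∨
    (tpath hT r F).support = (tpath hT r G).support ++ [F] := by
  by_cases hF : F ∈ (tpath hT r G).support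
  · left
    rw [hT.isAcyclic.path_concat (tpath_isPath hT r F) (tpath_isPath hT r G) h hF,
      Walk.support_concat]
  · right
    have hG := hT.isAcyclic.mem_support_of_ne_mem_support_of_adj_of_isPath
      (tpath_isPath hT r F) (tpath_isPath hT r G) h hF
    rw [hT.isAcyclic.path_concat (tpath_isPath hT r G) (tpath_isPath hT r F) h.symm hG,
      Walk.support_concat]

/-- the reflection in the hyperplane `⟪m, x⟫ = d` -/
noncomputable def sig (m : E 4) (d : ℝ) : E 4 ≃ᵃⁱ[ℝ] E 4 :=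
  (refl m).toAffineIsometryEquiv.trans
    (AffineIsometryEquiv.constVAdd ℝ (E 4) ((2 * d / ‖m‖ ^ 2) • m))

lemma sig_apply (m : E 4) (d : ℝ) (x : E 4) :
    sig m d x = x - (2 * (⟪m, x⟫ - d) / ‖m‖ ^ 2) • m := by
  change (2 * d / ‖m‖ ^ 2) • m + refl m x = _
  rw [refl_apply]
  have : (2 * (⟪m, x⟫ - d) / ‖m‖ ^ 2) = 2 * ⟪m, x⟫ / ‖m‖ ^ 2 - 2 * d / ‖m‖ ^ 2 := by ring
  rw [this, sub_smul]
  abel

lemma sig_fix {m : E 4} {d : ℝ} {x : E 4} (h : ⟪m, x⟫ = d) : sig m d x = x := by
  rw [sig_apply, h]; simp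

lemma inner_sig {m : E 4} (hm : m ≠ 0) (d : ℝ) (x : E 4) : ⟪m, sig m d x⟫ = 2 * d - ⟪m, x⟫ := by
  have : ‖m‖ ^ 2 ≠ 0 := by
    have := norm_ne_zero_iff.mpr hm
    positivity
  rw [sig_apply, inner_sub_right, inner_smul_right, real_inner_self_eq_norm_sq]
  field_simp
  ring

lemma sig_sig {m : E 4} (hm : m ≠ 0) (d : ℝ) (x : E 4) : sig m d (sig m d x) = x := by
  rw [sig_apply m d (sig m d x), inner_sig hm, sig_apply m d x, sub_sub, ← add_smul]
  have : 2 * (⟪m, x⟫ - d) / ‖m‖ ^ 2 + 2 * (2 * d - ⟪m, x⟫ - d) / ‖m‖ ^ 2 = 0 := by ring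
  rw [this, zero_smul, sub_zero]

/-- reflection of the hyperplane of `m'` onto the hyperplane of `m` -/
lemma inner_sig_add {m m' : E 4} (hm : ‖m‖ = ‖m'‖) (hne : m + m' ≠ 0) (c : ℝ) (x : E 4) :
    ⟪m, sig (m + m') (2 * c) x⟫ = 2 * c - ⟪m', x⟫ := by
  have h1 : ‖m + m'‖ ^ 2 ≠ 0 := by
    have := norm_ne_zero_iff.mpr hne
    positivity
  have h2 : ‖m + m'‖ ^ 2 = 2 * ⟪m, m + m'⟫ := by
    rw [@norm_add_sq_real, inner_add_right, real_inner_self_eq_norm_sq, hm]
    ring
  rw [sig_apply, inner_sub_right, inner_smul_right]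
  have h3 : ⟪m + m', x⟫ = ⟪m, x⟫ + ⟪m', x⟫ := inner_add_left _ _ _
  have h4 : 2 * (⟪m + m', x⟫ - 2 * c) / ‖m + m'‖ ^ 2 * ⟪m, m + m'⟫ = ⟪m + m', x⟫ - 2 * c := by
    rw [h2] at h1 ⊢
    have h5 : ⟪m, m + m'⟫ ≠ 0 := fun h => h1 (by rw [h, mul_zero])
    rw [div_mul_eq_mul_div, div_eq_iff h1]
    ring
  rw [h4, h3]
  ring

/-- the development of the facets with normals `l`, in this order -/
noncomputable def dl (c : ℝ) : List (E 4) → (E 4 ≃ᵃⁱ[ℝ] E 4)
  | [] => AffineIsometryEquiv.refl ℝ (E 4)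
  | [_] => AffineIsometryEquiv.refl ℝ (E 4)
  | m :: m' :: l => (dl c (m' :: l)).trans (sig (m + m') (2 * c))

lemma dl_concat (c : ℝ) (m m' : E 4) (x : E 4) : ∀ l : List (E 4),
    dl c (l ++ [m, m']) x = dl c (l ++ [m]) (sig (m + m') (2 * c) x)
  | [] => rfl
  | [u] => rfl
  | u :: v :: l => by
    have ih := dl_concat c m m' x (v :: l)
    change sig (u + v) (2 * c) (dl c (v :: l ++ [m, m']) x) =
      sig (u + v) (2 * c) (dl c (v :: l ++ [m]) (sig (m + m') (2 * c) x))
    rw [ih]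

lemma dl_mem (c R : ℝ) : ∀ (l : List (E 4)) (m₀ : E 4), (∀ m ∈ m₀ :: l, ‖m‖ = R) →
    (m₀ :: l).IsChain (fun m m' => m + m' ≠ 0) → ∀ x,
    ⟪(m₀ :: l).getLast (List.cons_ne_nil _ _), x⟫ = c → ⟪m₀, dl c (m₀ :: l) x⟫ = c
  | [], m₀, _, _, x, hx => hx
  | m₁ :: l, m₀, hR, hc, x, hx => by
    rw [List.isChain_cons_cons] at hc
    have ih := dl_mem c R l m₁ (fun m hm => hR m (List.mem_cons_of_mem _ hm)) hc.2 x
      (by rwa [List.getLast_cons_cons] at hx)
    change ⟪m₀, sig (m₀ + m₁) (2 * c) (dl c (m₁ :: l) x)⟫ = c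
    rw [inner_sig_add (by rw [hR m₀ (by simp), hR m₁ (by simp)]) hc.1, ih]
    ring

namespace Data

variable {V : Set (E 4)} (D : Data V)

lemma mem_face {F : Facet (convexHull ℝ V)} {x : E 4} (hx : x ∈ F.1) :
    x ∈ convexHull ℝ V ∧ ⟪D.nrm F, x⟫ = D.c := by
  rw [D.coe_eq F] at hx
  exact hx

lemma inner_le (F : Facet (convexHull ℝ V)) {x : E 4} (hx : x ∈ convexHull ℝ V) :
    ⟪D.nrm F, x⟫ ≤ D.c := D.N_hull (D.nrm_mem F) hx

lemma exists_strict {F G : Facet (convexHull ℝ V)} (h : F ≠ G) : ∃ x ∈ F.1, ⟪D.nrm G, x⟫ < D.c := by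
  by_contra hcon
  push Not at hcon
  apply h
  have h1 : D.face (D.nrm F) ⊆ D.face (D.nrm G) := by
    rw [← D.coe_eq F]
    intro x hx
    exact ⟨(D.mem_face hx).1, le_antisymm (D.inner_le G (D.mem_face hx).1) (hcon x hx)⟩
  have h2 := D.face_inj (D.nrm_mem F) h1
  apply facet_ext
  rw [D.coe_eq F, D.coe_eq G, h2]

lemma add_ne {F G : Facet (convexHull ℝ V)} (h : (dualGraph (convexHull ℝ V)).Adj F G) :
    D.nrm F + D.nrm G ≠ 0 := by
  obtain ⟨-, R, hR, hF, hG⟩ := h
  obtain ⟨x, hx⟩ := hR.1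
  intro h0
  have h1 : ⟪D.nrm F + D.nrm G, x⟫ = 0 := by rw [h0, inner_zero_left]
  rw [inner_add_left, (D.mem_face (hF hx)).2, (D.mem_face (hG hx)).2] at h1
  have := D.c_pos
  linarith

lemma sides {F G : Facet (convexHull ℝ V)} (h : (dualGraph (convexHull ℝ V)).Adj F G)
    (A B : E 4 ≃ᵃⁱ[ℝ] E 4) (hB : ∀ x, B x = A (sig (D.nrm F + D.nrm G) (2 * D.c) x)) :
    OnTwoSides (A '' F.1) (B '' G.1) := by
  set m := D.nrm F + D.nrm G with hm
  have hm0 : m ≠ 0 := D.add_ne h
  have hA : ∀ x, ⟪A.linearIsometryEquiv m, A x⟫ = ⟪m, x⟫ + ⟪A.linearIsometryEquiv m, A 0⟫ := by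
    intro x
    have h1 : A x = A.linearIsometryEquiv x + A 0 := by
      have := A.map_vadd 0 x
      simpa using this
    rw [h1, inner_add_right, LinearIsometryEquiv.inner_map_map]
  refine ⟨A.linearIsometryEquiv m, 2 * D.c + ⟪A.linearIsometryEquiv m, A 0⟫, ?_, ?_, ?_, ?_⟩
  · rintro _ ⟨x, hx, rfl⟩
    rw [ip, hA, hm, inner_add_left, (D.mem_face hx).2]
    have := D.inner_le G (D.mem_face hx).1
    linarith
  · obtain ⟨x, hx, hlt⟩ := D.exists_strict h.1
    refine ⟨_, ⟨x, hx, rfl⟩, ?_⟩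
    rw [ip, hA, hm, inner_add_left, (D.mem_face hx).2]
    linarith
  · rintro _ ⟨x, hx, rfl⟩
    rw [ip, hB, hA (sig m (2 * D.c) x), inner_sig hm0, hm, inner_add_left, (D.mem_face hx).2]
    have := D.inner_le F (D.mem_face hx).1
    linarith
  · obtain ⟨x, hx, hlt⟩ := D.exists_strict h.1.symm
    refine ⟨_, ⟨x, hx, rfl⟩, ?_⟩
    rw [ip, hB, hA (sig m (2 * D.c) x), inner_sig hm0, hm, inner_add_left, (D.mem_face hx).2]
    linarith

section Tree

variable {T : SimpleGraph (Facet (convexHull ℝ V))} (hT : T.IsTree) (F₀ : Facet (convexHull ℝ V))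

/-- the development along the tree -/
noncomputable def devT (F : Facet (convexHull ℝ V)) : E 4 ≃ᵃⁱ[ℝ] E 4 :=
  dl D.c ((tpath hT F₀ F).support.map D.nrm)

lemma devT_of_support {F G : Facet (convexHull ℝ V)}
    (h : (tpath hT F₀ G).support = (tpath hT F₀ F).support ++ [G]) (x : E 4) :
    D.devT hT F₀ G x = D.devT hT F₀ F (sig (D.nrm F + D.nrm G) (2 * D.c) x) := by
  obtain ⟨s, hs⟩ : ∃ s, (tpath hT F₀ F).support = s ++ [F] := by
    refine ⟨(tpath hT F₀ F).support.dropLast, ?_⟩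
    have h1 := List.dropLast_append_getLast (Walk.support_ne_nil (tpath hT F₀ F))
    rw [Walk.getLast_support] at h1
    exact h1.symm
  unfold devT
  have h1 : (s ++ [F] ++ [G]).map D.nrm = s.map D.nrm ++ [D.nrm F, D.nrm G] := by simp
  have h2 : (s ++ [F]).map D.nrm = s.map D.nrm ++ [D.nrm F] := by simp
  rw [h, hs, h1, h2]
  exact dl_concat D.c (D.nrm F) (D.nrm G) x _

lemma exists_unfolding (l : List (Facet (convexHull ℝ V)))
    (hc : (F₀ :: l).IsChain (dualGraph (convexHull ℝ V)).Adj) (hn : (F₀ :: l).Nodup) :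
    ∃ U : RidgeUnfolding (convexHull ℝ V), (∀ F, ∃ A : E 4 ≃ᵃⁱ[ℝ] E 4, U.dev F = A) ∧
      (∀ x, U.dev F₀ x = x) ∧
      ∀ x, U.dev ((F₀ :: l).getLast (List.cons_ne_nil _ _)) x = dl D.c ((F₀ :: l).map D.nrm) x := by
  obtain ⟨T, hle, hT, p, hp, hps⟩ := exists_tree D.connected F₀ l hc hn
  have hn0 : D.nrm F₀ ≠ 0 := D.N_ne (D.nrm_mem F₀)
  let U : RidgeUnfolding (convexHull ℝ V) :=
    { T := T
      isTree := hT
      le_dual := hle
      H := {x | ip (D.nrm F₀) x = D.c}
      hyperplane := ⟨D.nrm F₀, D.c, hn0, rfl⟩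
      dev := fun F => D.devT hT F₀ F
      isom := fun F => (D.devT hT F₀ F).isometry
      dev_subset := by
        rintro F _ ⟨x, hx, rfl⟩
        change ⟪D.nrm F₀, D.devT hT F₀ F x⟫ = D.c
        unfold devT
        obtain ⟨s, hs⟩ : ∃ s, (tpath hT F₀ F).support = F₀ :: s :=
          ⟨_, (Walk.cons_tail_support _).symm⟩
        have hchain := Walk.isChain_adj_support (tpath hT F₀ F)
        rw [hs] at hchain ⊢
        rw [List.map_cons]
        refine dl_mem D.c ‖D.nv‖ _ _ ?_ ?_ x ?_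
        · intro m hm
          rw [← List.map_cons, List.mem_map] at hm
          obtain ⟨G, -, rfl⟩ := hm
          exact (D.nrm_mem G).1
        · rw [← List.map_cons, List.isChain_map]
          exact hchain.imp fun a b hab => D.add_ne (hle hab)
        · have h1 : (D.nrm F₀ :: s.map D.nrm).getLast (List.cons_ne_nil _ _) = D.nrm F := by
            have h2 := Walk.getLast_support (tpath hT F₀ F)
            simp only [hs] at h2
            simp only [← List.map_cons, List.getLast_map, h2]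
          rw [h1]
          exact (D.mem_face hx).2
      hinged := by
        intro F G h
        constructor
        · intro x hx
          have h1 : ⟪D.nrm F + D.nrm G, x⟫ = 2 * D.c := by
            rw [inner_add_left, (D.mem_face hx.1).2, (D.mem_face hx.2).2]
            ring
          change D.devT hT F₀ F x = D.devT hT F₀ G x
          rcases tpath_adj hT F₀ h with h2 | h2
          · rw [D.devT_of_support hT F₀ h2, sig_fix h1]
          · rw [D.devT_of_support hT F₀ h2, add_comm, sig_fix h1]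
        · rcases tpath_adj hT F₀ h with h2 | h2
          · exact D.sides (hle h) _ _ (D.devT_of_support hT F₀ h2)
          · obtain ⟨l, c, k1, ⟨x, k2, k3⟩, k4, ⟨y, k5, k6⟩⟩ :=
              D.sides (hle h.symm) _ _ (D.devT_of_support hT F₀ h2)
            unfold ip at k1 k3 k4 k6
            refine ⟨-l, -c, fun z hz => ?_, ⟨y, k5, ?_⟩, fun z hz => ?_, ⟨x, k2, ?_⟩⟩
            · have := k4 z hz
              simp only [ip, inner_neg_left]
              linarith
            · simp only [ip, inner_neg_left]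
              linarith
            · have := k1 z hz
              simp only [ip, inner_neg_left]
              linarith
            · simp only [ip, inner_neg_left]
              linarith }
  have hdev : ∀ {G : Facet (convexHull ℝ V)} (q : T.Walk F₀ G), q.IsPath →
      D.devT hT F₀ G = dl D.c (q.support.map D.nrm) := by
    intro G q hq
    unfold devT
    rw [← tpath_unique hT hq]
  refine ⟨U, fun F => ⟨D.devT hT F₀ F, rfl⟩, fun x => ?_, fun x => ?_⟩
  · change D.devT hT F₀ F₀ x = x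
    rw [hdev Walk.nil Walk.IsPath.nil]
    rfl
  · change D.devT hT F₀ _ x = _
    rw [hdev p hp, hps]

end Tree

theorem not_allNet (F₀ : Facet (convexHull ℝ V)) (l : List (Facet (convexHull ℝ V)))
    (hc : (F₀ :: l).IsChain (dualGraph (convexHull ℝ V)).Adj) (hn : (F₀ :: l).Nodup) (hl : l ≠ [])
    (x y : E 4) (hx : x ∈ intrinsicInterior ℝ F₀.1)
    (hy : y ∈ intrinsicInterior ℝ ((F₀ :: l).getLast (List.cons_ne_nil _ _)).1)
    (hxy : dl D.c ((F₀ :: l).map D.nrm) y = x) : ¬ AllNet (convexHull ℝ V) := by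
  intro hnet
  obtain ⟨U, hU, h1, h2⟩ := D.exists_unfolding F₀ l hc hn
  have hne : F₀ ≠ (F₀ :: l).getLast (List.cons_ne_nil _ _) := by
    intro h
    rw [List.getLast_cons hl] at h
    rw [List.nodup_cons] at hn
    exact hn.1 (h ▸ List.getLast_mem hl)
  have h3 := hnet U _ _ hne
  unfold relint at h3
  rw [Set.disjoint_left] at h3
  have h4 : ∀ F : Facet (convexHull ℝ V), intrinsicInterior ℝ (U.image F) =
      U.dev F '' intrinsicInterior ℝ F.1 := fun F => by
    obtain ⟨A, hA⟩ := hU F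
    unfold RidgeUnfolding.image
    rw [hA]
    exact AffineIsometry.intrinsicInterior_image A.toAffineIsometry F.1
  refine h3 (a := x) ?_ ?_
  · rw [h4]
    exact ⟨x, hx, h1 x⟩
  · rw [h4]
    exact ⟨y, hy, by rw [h2 y]; exact hxy⟩

end Data

end Pool.Agent.H180.Net
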